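import Pool.Agent.MP_b00c97_gt.FO.Defs
import Pool.Agent.MP_7e7dde_gt.Names

/-! The YES side: a countably closed poset adding a subgroup of `ℤ^ω`, and the names. -/

set_option autoImplicit false
set_option linter.unusedVariables false
set_option linter.unusedSectionVars false

namespace Pool.Agent.MP_b00c97_gt.YS

open Filter MeasureTheory Pool.Agent.BVM Pool.Agent.BVM.BName Pool.Agent.SetModel
  Pool.Agent.MP63050e Pool.Agent.MP7e7dde Pool.Agent.MP9096b7 Pool.Agent.MP_b00c97_gt.Mod
  Pool.Agent.MP_b00c97_gt.FO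

/-! ### The poset -/

/-- `max {|x i| : i < n}`. -/
def mx (x : ℕ → ℤ) (n : ℕ) : ℕ := (Finset.range n).sup fun i => (x i).natAbs

/-- A promise `(h, b)`. -/
def IsProm (φ : (ℕ → ℕ) × (ℕ → ℕ)) : Prop :=
  StrictMono φ.1 ∧ ∀ n, n * (φ.1 (n + 1) + 1) ≤ φ.2 n

/-- `x` keeps the promise `φ`. -/
def Keeps (φ : (ℕ → ℕ) × (ℕ → ℕ)) (x : ℕ → ℤ) : Prop := ∃ᶠ n in atTop, mx x (φ.1 n) ≤ φ.2 n

/-- The conditions: a countable subgroup of `ℤ^ω` and a countable set of promises. -/
structure Cond where
  /-- the group -/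
  H : AddSubgroup (ℕ → ℤ)
  /-- the promises -/
  Φ : Set ((ℕ → ℕ) × (ℕ → ℕ))
  H_ctbl : (H : Set (ℕ → ℤ)).Countable
  Φ_ctbl : Φ.Countable
  fin : ∀ x : ℕ → ℤ, (∃ N, ∀ i, N ≤ i → x i = 0) → x ∈ H
  prom : ∀ φ ∈ Φ, IsProm φ
  keeps : ∀ φ ∈ Φ, ∀ x ∈ H, Keeps φ x

instance : Preorder Cond where
  le q p := p.H ≤ q.H ∧ p.Φ ⊆ q.Φ
  le_refl p := ⟨le_rfl, subset_rfl⟩
  le_trans r q p hrq hqp := ⟨hqp.1.trans hrq.1, hqp.2.trans hrq.2⟩

theorem Cond.le_iff {q p : Cond} : q ≤ p ↔ p.H ≤ q.H ∧ p.Φ ⊆ q.Φ := Iff.rfl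

/-! ### The names -/

variable {B : Type} [CompleteBooleanAlgebra B]

/-- The truth values of a subgroup of `ℤ^ω`. -/
structure IsGV (v : (ℕ → ℤ) → B) : Prop where
  zero : v 0 = ⊤
  add : ∀ x y, v x ⊓ v y ≤ v (x + y)
  neg : ∀ x, v x ≤ v (-x)

/-- The name of the group. -/
noncomputable def grN (v : (ℕ → ℤ) → B) : BName B := chk v

/-- The name of the addition. -/
noncomputable def mulN (B : Type) [CompleteBooleanAlgebra B] : BName B :=
  BName.mk ((ℕ → ℤ) × (ℕ → ℤ)) (fun p => opair (nm p.1) (opair (nm p.2) (nm (p.1 + p.2))))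
    (fun _ => ⊤)

open Classical in
/-- The name of the first difference of `x` and `y`, of `ω` if there is none. -/
noncomputable def fdN (B : Type) [CompleteBooleanAlgebra B] (x y : ℕ → ℤ) : BName B :=
  if H : ∃ n, x n ≠ y n then vN (Nat.find H) else omN B

/-- The name of the function `δ`. -/
noncomputable def deltaN (B : Type) [CompleteBooleanAlgebra B] : BName B :=
  BName.mk ((ℕ → ℤ) × (ℕ → ℤ)) (fun p => opair (nm p.1) (opair (nm p.2) (fdN B p.1 p.2)))
    (fun _ => ⊤)

/-- The name of the ball. -/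
noncomputable def ballN (v : (ℕ → ℤ) → B) (a : ℕ → ℤ) (n : ℕ) : BName B :=
  chk fun x => v x ⊓ tv B (∀ i < n, x i = a i)

/-- The name of a finite set. -/
noncomputable def fstN (B : Type) [CompleteBooleanAlgebra B] (F : Finset (ℕ → ℤ)) : BName B :=
  BName.mk {x // x ∈ F} (fun x => nm x.1) (fun _ => ⊤)

/-- The name of the finite sequence of finite sets `l`. -/
noncomputable def seqF (B : Type) [CompleteBooleanAlgebra B] (l : List (Finset (ℕ → ℤ))) :
    BName B := sgL (l.map (fstN B))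

/-- The move of player I after the moves `l` of player II. -/
def mv (l : List (Finset (ℕ → ℤ))) : ℕ := l.foldl (fun a F => max a (F.sup fun x => mx x a) + 1) 1

/-- The name of the strategy of player I. -/
noncomputable def sigN (v : (ℕ → ℤ) → B) : BName B :=
  BName.mk (List (Finset (ℕ → ℤ))) (fun l => opair (seqF B l) (ballN v 0 (mv l))) (fun _ => ⊤)

/-- The truth value of: `x` belongs to the generic group. -/
noncomputable def gv (em : Cond → B) (x : ℕ → ℤ) : B := ⨆ p : {p : Cond // x ∈ p.H}, em p.1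

/-- `z` is an open set of the topology. -/
def OpP (v : (ℕ → ℤ) → B) (h : Ult B) (z : Mdl h) : Prop :=
  Sub (E h) z (Mdl.mk h (grN v)) ∧ ∀ x, E h x z → ∃ n, E h n (wM h) ∧
    ∀ y k, E h y (Mdl.mk h (grN v)) → Has (E h) (Mdl.mk h (deltaN B)) [x, y, k] →
      LeN (E h) n k → E h y z

theorem exists_topN (v : (ℕ → ℤ) → B) : ∃ T : BName B, ∀ (h : Ult B) z,
    E h z (Mdl.mk h T) ↔ OpP v h z := by
  obtain ⟨T, hT⟩ := separation_name (H := fun h : Ult B => h) (D := fun h z => OpP v h z)
    (by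
      unfold OpP
      repeat' first
        | exact BMap.id
        | apply BMap.fst
        | apply BMap.snd
        | exact BTerm.const _
        | apply bterm_opair
        | apply BTerm.of
        | apply BPred.mem
        | apply BPred.eq
        | apply bp_has2
        | apply bp_has3
        | apply bp_leN
        | apply bp_sub
        | apply BPred.not
        | apply BPred.and
        | apply BPred.or
        | apply BPred.iff
        | apply BPred.imp
        | refine BPred.ex ?_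
        | refine BPred.all ?_
        | exact BPred.const _) (spow (grN v))
  refine ⟨T, fun h z => ?_⟩
  rw [hT]
  exact ⟨fun H => H.2, fun H => ⟨subset_mem_spow h _ z H.1, H⟩⟩

/-- The name of the topology. -/
noncomputable def topN (v : (ℕ → ℤ) → B) : BName B := (exists_topN v).choose

theorem E_topN (v : (ℕ → ℤ) → B) (h : Ult B) (z : Mdl h) :
    E h z (Mdl.mk h (topN v)) ↔ OpP v h z := (exists_topN v).choose_spec h z

end Pool.Agent.MP_b00c97_gt.YS
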