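import Pool.Agent.MP_b00c97_gt.YS.Poset

/-! Block YF: finite sets and finite sequences of them. -/

set_option autoImplicit false
set_option linter.unusedVariables false
set_option linter.unusedSectionVars false
set_option linter.unreachableTactic false
set_option linter.unusedTactic false

namespace Pool.Agent.MP_b00c97_gt.YS

open Filter MeasureTheory Pool.Agent.BVM Pool.Agent.BVM.BName Pool.Agent.SetModel
  Pool.Agent.MP63050e Pool.Agent.MP7e7dde Pool.Agent.MP9096b7 Pool.Agent.MP_b00c97_gt.Mod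
  Pool.Agent.MP_b00c97_gt.FO

variable {B : Type} [CompleteBooleanAlgebra B]

/-! ### Names indexed by a finite type -/

theorem fin_V_iSup {h : Ult B} {ι : Type} [Finite ι] (f : ι → B) :
    h.V (⨆ i, f i) ↔ ∃ i, h.V (f i) := by
  constructor
  · intro H
    by_contra hcon
    push Not at hcon
    have h1 : h.V (⨅ i, (f i)ᶜ) := (V_iInf_fin _).2 fun i => (h.compl' _).2 (hcon i)
    rw [← compl_iSup, h.compl'] at h1
    exact h1 H
  · rintro ⟨i, hi⟩
    exact h.iSup_of f i hi

theorem fin_E {ι : Type} [Finite ι] (e : ι → BName B) (c : ι → B) (h : Ult B) (z : Mdl h) :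
    E h z (Mdl.mk h (BName.mk ι e c)) ↔ ∃ i, h.V (c i) ∧ z = Mdl.mk h (e i) := by
  obtain ⟨z, rfl⟩ := z.exists_rep
  rw [E_mk, bmem_mk, fin_V_iSup]
  refine exists_congr fun i => ?_
  rw [h.inf', Mdl.mk_eq]

/-! ### Finite sets -/

theorem E_fstN (F : Finset (ℕ → ℤ)) (h : Ult B) (z : Mdl h) :
    E h z (Mdl.mk h (fstN B F)) ↔ ∃ x ∈ F, z = Mdl.mk h (nm x) := by
  rw [fstN, fin_E]
  constructor
  · rintro ⟨x, -, hx⟩
    exact ⟨x.1, x.2, hx⟩
  · rintro ⟨x, hx, hz⟩
    exact ⟨⟨x, hx⟩, h.top', hz⟩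

theorem fstN_inj {F F' : Finset (ℕ → ℤ)} {h : Ult B} :
    Mdl.mk h (fstN B F) = Mdl.mk h (fstN B F') ↔ F = F' := by
  constructor
  · intro H
    have key : ∀ F F' : Finset (ℕ → ℤ), Mdl.mk h (fstN B F) = Mdl.mk h (fstN B F') →
        ∀ x ∈ F, x ∈ F' := by
      intro F F' H x hx
      have h1 : E h (Mdl.mk h (nm x)) (Mdl.mk h (fstN B F)) := (E_fstN F h _).2 ⟨x, hx, rfl⟩
      rw [H, E_fstN] at h1
      obtain ⟨x', hx', he⟩ := h1
      rw [nm_inj] at he
      exact he ▸ hx'
    exact Finset.Subset.antisymm (key F F' H) (key F' F H.symm)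
  · rintro rfl
    rfl

theorem isFin_fstN (F : Finset (ℕ → ℤ)) (h : Ult B) :
    IsFin (E h) (wM h) (Mdl.mk h (fstN B F)) := by
  classical
  refine isFin_seq (fun m => if hm : m < F.card then nm (F.equivFin.symm ⟨m, hm⟩).1 else omN B)
    F.card fun z hz => ?_
  obtain ⟨x, hx, rfl⟩ := (E_fstN F h z).1 hz
  rw [fin_E]
  refine ⟨⟨(F.equivFin ⟨x, hx⟩).1, (F.equivFin ⟨x, hx⟩).2⟩, h.top', ?_⟩
  simp

/-! ### Finite sequences -/

theorem E_sgL (l : List (BName B)) (h : Ult B) (z : Mdl h) :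
    E h z (Mdl.mk h (sgL l)) ↔ ∃ i : Fin l.length, z = pr h (nM h i) (Mdl.mk h (l.get i)) := by
  rw [sgL, fin_E]
  exact exists_congr fun i => ⟨fun H => H.2, fun H => ⟨h.top', H⟩⟩

theorem has_sgL (l : List (BName B)) (h : Ult B) (i : ℕ) (y : Mdl h) :
    Has (E h) (Mdl.mk h (sgL l)) [nM h i, y] ↔
      ∃ hi : i < l.length, y = Mdl.mk h (l.get ⟨i, hi⟩) := by
  rw [has_iff (by simp)]
  change E h (pr h (nM h i) y) (Mdl.mk h (sgL l)) ↔ _
  rw [E_sgL]
  constructor
  · rintro ⟨j, hj⟩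
    obtain ⟨h1, h2⟩ := pr_inj.1 hj
    rw [vN_inj] at h1
    subst h1
    exact ⟨j.2, h2⟩
  · rintro ⟨hi, rfl⟩
    exact ⟨⟨i, hi⟩, rfl⟩

theorem has_seqF (l : List (Finset (ℕ → ℤ))) (h : Ult B) (i : ℕ) (y : Mdl h) :
    Has (E h) (Mdl.mk h (seqF B l)) [nM h i, y] ↔
      ∃ hi : i < l.length, y = Mdl.mk h (fstN B (l.get ⟨i, hi⟩)) := by
  rw [seqF, has_sgL]
  simp

theorem seqF_inj {l l' : List (Finset (ℕ → ℤ))} {h : Ult B} :
    Mdl.mk h (seqF B l) = Mdl.mk h (seqF B l') ↔ l = l' := by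
  constructor
  · intro H
    have key : ∀ l l' : List (Finset (ℕ → ℤ)), Mdl.mk h (seqF B l) = Mdl.mk h (seqF B l') →
        ∀ i (hi : i < l.length), ∃ hi' : i < l'.length, l.get ⟨i, hi⟩ = l'.get ⟨i, hi'⟩ := by
      intro l l' H i hi
      have h1 := (has_seqF (B := B) l h i _).2 ⟨hi, rfl⟩
      rw [H, has_seqF] at h1
      obtain ⟨hi', he⟩ := h1
      exact ⟨hi', fstN_inj.1 he⟩
    have hlen : l.length = l'.length := by
      rcases lt_trichotomy l.length l'.length with h1 | h1 | h1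
      · exact absurd (key l' l H.symm _ h1).1 (lt_irrefl _)
      · exact h1
      · exact absurd (key l l' H _ h1).1 (lt_irrefl _)
    exact List.ext_get hlen fun i h1 h2 => (key l l' H i h1).2
  · rintro rfl
    rfl

/-- A sequence whose values are known is known. -/
theorem eq_seqF (l : List (Finset (ℕ → ℤ))) {h : Ult B} {s Y : Mdl h}
    (hs : IsFun (E h) s (nM h l.length) Y)
    (H : ∀ i (hi : i < l.length) (u : Mdl h), Has (E h) s [nM h i, u] →
      u = Mdl.mk h (fstN B (l.get ⟨i, hi⟩))) :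
    s = Mdl.mk h (seqF B l) := by
  apply Mdl.ext
  intro z
  constructor
  · intro hz
    obtain ⟨a, b, ha, hb, hab⟩ := hs.1 z hz
    rw [isPair_iff] at hab
    subst hab
    obtain ⟨i, hi, rfl⟩ := E_nM_iff.1 ha
    have h1 : Has (E h) s [nM h i, b] := (has_iff (by simp)).2 hz
    have h2 := (has_seqF (B := B) l h i b).2 ⟨hi, H i hi b h1⟩
    rw [has_iff (by simp)] at h2
    exact h2
  · intro hz
    rw [seqF, E_sgL] at hz
    obtain ⟨i, rfl⟩ := hz
    have hi : (i : ℕ) < l.length := by simpa using i.2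
    obtain ⟨b, hb, -⟩ := hs.2 (nM h i) (E_nM_iff.2 ⟨i, hi, rfl⟩)
    have h1 := H i hi b hb
    subst h1
    rw [has_iff (by simp)] at hb
    have h2 : Mdl.mk h ((l.map (fstN B)).get i) = Mdl.mk h (fstN B (l.get ⟨i, hi⟩)) := by simp
    rw [h2]
    exact hb

/-- The same for the restrictions of a sequence. -/
theorem eq_seqF_restr (l : List (Finset (ℕ → ℤ))) {h : Ult B} {s f Y : Mdl h}
    (hf : IsFun (E h) f (wM h) Y) (hs : IsRestr (E h) s f (nM h l.length))
    (H : ∀ i (hi : i < l.length) (u : Mdl h), Has (E h) f [nM h i, u] →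
      u = Mdl.mk h (fstN B (l.get ⟨i, hi⟩))) :
    s = Mdl.mk h (seqF B l) := by
  have h1 : ∀ a b, E h a (nM h l.length) → Has (E h) f [a, b] → Has (E h) s [a, b] := by
    intro a b ha hab
    rw [has_iff (by simp)] at hab ⊢
    exact (hs _).2 ⟨hab, a, b, ha, isPair_iff.2 rfl⟩
  have h2 : ∀ a b, Has (E h) s [a, b] → Has (E h) f [a, b] := by
    intro a b hab
    rw [has_iff (by simp)] at hab ⊢
    exact ((hs _).1 hab).1
  have hsf : IsFun (E h) s (nM h l.length) Y := by
    refine ⟨fun p hp => ?_, fun a ha => ?_⟩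
    · obtain ⟨hpf, a, b, ha, hab⟩ := (hs p).1 hp
      obtain ⟨a', b', ha', hb', hab'⟩ := hf.1 p hpf
      rw [isPair_iff] at hab hab'
      obtain ⟨rfl, rfl⟩ := pr_inj.1 (hab.symm.trans hab')
      exact ⟨a, b, ha, hb', isPair_iff.2 hab⟩
    · obtain ⟨i, hi, rfl⟩ := E_nM_iff.1 ha
      obtain ⟨b, hb, hb'⟩ := hf.2 (nM h i) (E_nM h i)
      exact ⟨b, h1 _ _ ha hb, fun b'' hb'' => hb' _ (h2 _ _ hb'')⟩
  exact eq_seqF l hsf fun i hi u hu => H i hi u (h2 _ _ hu)

section forcing

variable {em : Cond → B} (hem : DenseEmb em)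

include hem

/-- Deciding a finite set. -/
theorem decide_fin (A : BName B) {p : Cond}
    (H : Fo em p fun h => IsFinSub (E h) (wM h) (Mdl.mk h (grN (gv em))) (Mdl.mk h A)) :
    ∃ q, q ≤ p ∧ ∃ F : Finset (ℕ → ℤ), (∀ x ∈ F, Fo em q fun h => h.V (gv em x)) ∧
      Fo em q fun h => Mdl.mk h A = Mdl.mk h (fstN B F) := by
  obtain ⟨q, hqp, S, hS, h1, h2⟩ := fin_dec hem sc_cond (nm : (ℕ → ℤ) → BName B) (gv em) A
    (p := p) (fun h hh => ⟨(H h hh).2, (H h hh).1⟩)
  refine ⟨q, hqp, hS.toFinset, fun x hx h hh => (h1 x (hS.mem_toFinset.1 hx) h hh).1,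
    fun h hh => ?_⟩
  have : Finite S := hS
  apply Mdl.ext
  intro z
  rw [E_fstN]
  constructor
  · intro hz
    obtain ⟨i, -, hi⟩ := (fin_E _ _ h z).1 (h2 h hh z hz)
    exact ⟨i.1, hS.mem_toFinset.2 i.2, hi⟩
  · rintro ⟨x, hx, rfl⟩
    exact (h1 x (hS.mem_toFinset.1 hx) h hh).2

/-- Deciding a value of a sequence of finite sets. -/
theorem decide_val (A N : BName B) {p : Cond}
    (H : Fo em p fun h => IsSeqOf (E h) (Mdl.mk h N)
      (IsFinSub (E h) (wM h) (Mdl.mk h (grN (gv em)))) (Mdl.mk h A)) (i : ℕ)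
    (hi : Fo em p fun h => E h (nM h i) (Mdl.mk h N)) :
    ∃ q, q ≤ p ∧ ∃ F : Finset (ℕ → ℤ), Fo em q fun h => ∀ u,
      Has (E h) (Mdl.mk h A) [nM h i, u] → u = Mdl.mk h (fstN B F) := by
  obtain ⟨u, hu⟩ := exists_wit (P := fun h u => Has (E h) (Mdl.mk h A) [nM h i, u]) (by (repeat' first | exact BMap.id | apply BMap.fst | apply BMap.snd | exact BTerm.const _ | apply bterm_opair | apply BTerm.of | apply BPred.mem | apply BPred.eq | apply bp_has2 | apply bp_has3 | apply bp_has4 | apply bp_isTuple3 | apply bp_eq_pr | apply bp_isPair | apply bp_isUPair | apply bp_isFun | apply bp_injects | apply bp_leN | apply bp_sub | apply bp_isFin | apply bp_isTop | apply bp_isGrp | apply bp_isAbel | apply bp_isTopGrp | apply bp_isNbhd | apply bp_isFinSub | apply bp_inProd | apply bp_isSeqNb | apply bp_isSeqFs | apply bp_isOBdd | apply bp_isRestr | apply bp_isRule | apply bp_iWins | apply bp_isUMet | apply BPred.not | apply BPred.and | apply BPred.or | apply BPred.iff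 | apply BPred.imp | refine BPred.ex ?_ | refine BPred.all ?_ | exact BPred.const _))
    (Q := fun h => h.V (em p)) (fun h hh => by
      obtain ⟨Y, hY⟩ := (H h hh).1
      exact (hY.2 _ (hi h hh)).exists)
  obtain ⟨q, hqp, F, -, hF⟩ := decide_fin hem u (p := p) (fun h hh =>
    (H h hh).2 (nM h i) _ (hi h hh) (hu h hh))
  refine ⟨q, hqp, F, fun h hh v hv => ?_⟩
  have hp := h.mono (hem.mono _ _ hqp) hh
  obtain ⟨Y, hY⟩ := (H h hp).1
  rw [← hF h hh]
  exact (hY.2 _ (hi h hp)).unique hv (hu h hp)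

/-- The finite sequences of finite subsets of the group are in the name of the ground model
ones. -/
theorem seq_mem (h : Ult B) (n s : Mdl h) (hn : E h n (wM h))
    (hs : IsSeqOf (E h) n (IsFinSub (E h) (wM h) (Mdl.mk h (grN (gv em)))) s) :
    E h s (Mdl.mk h (BName.mk (List (Finset (ℕ → ℤ))) (seqF B) (fun _ => ⊤))) := by
  obtain ⟨n, rfl⟩ := n.exists_rep
  obtain ⟨s, rfl⟩ := s.exists_rep
  refine imp_of_fo hem (Q := fun h => E h (Mdl.mk h n) (wM h) ∧
    IsSeqOf (E h) (Mdl.mk h n) (IsFinSub (E h) (wM h) (Mdl.mk h (grN (gv em)))) (Mdl.mk h s))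
    (R := fun h => E h (Mdl.mk h s)
      (Mdl.mk h (BName.mk (List (Finset (ℕ → ℤ))) (seqF B) (fun _ => ⊤)))) ?_ ?_ ?_ h ⟨hn, hs⟩
  · exact BPred.clop (P := fun h (_ : PUnit.{1}) => E h (Mdl.mk h n) (wM h) ∧
      IsSeqOf (E h) (Mdl.mk h n) (IsFinSub (E h) (wM h) (Mdl.mk h (grN (gv em)))) (Mdl.mk h s))
      (by unfold IsSeqOf; (repeat' first | exact BMap.id | apply BMap.fst | apply BMap.snd | exact BTerm.const _ | apply bterm_opair | apply BTerm.of | apply BPred.mem | apply BPred.eq | apply bp_has2 | apply bp_has3 | apply bp_has4 | apply bp_isTuple3 | apply bp_eq_pr | apply bp_isPair | apply bp_isUPair | apply bp_isFun | apply bp_injects | apply bp_leN | apply bp_sub | apply bp_isFin | apply bp_isTop | apply bp_isGrp | apply bp_isAbel | apply bp_isTopGrp | apply bp_isNbhd | apply bp_isFinSub | apply bp_inProd | apply bp_isSeqNb | apply bp_isSeqFs | apply bp_isOBdd | apply bp_isRestr | apply bp_isRule | apply bp_iWins | apply bp_isUMet | apply BPred.not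 | apply BPred.and | apply BPred.or | apply BPred.iff | apply BPred.imp | refine BPred.ex ?_ | refine BPred.all ?_ | exact BPred.const _)) PUnit.unit
  · exact BPred.clop (P := fun h (_ : PUnit.{1}) => E h (Mdl.mk h s)
      (Mdl.mk h (BName.mk (List (Finset (ℕ → ℤ))) (seqF B) (fun _ => ⊤))))
      (by (repeat' first | exact BMap.id | apply BMap.fst | apply BMap.snd | exact BTerm.const _ | apply bterm_opair | apply BTerm.of | apply BPred.mem | apply BPred.eq | apply bp_has2 | apply bp_has3 | apply bp_has4 | apply bp_isTuple3 | apply bp_eq_pr | apply bp_isPair | apply bp_isUPair | apply bp_isFun | apply bp_injects | apply bp_leN | apply bp_sub | apply bp_isFin | apply bp_isTop | apply bp_isGrp | apply bp_isAbel | apply bp_isTopGrp | apply bp_isNbhd | apply bp_isFinSub | apply bp_inProd | apply bp_isSeqNb | apply bp_isSeqFs | apply bp_isOBdd | apply bp_isRestr | apply bp_isRule | apply bp_iWins | apply bp_isUMet | apply BPred.not | apply BPred.and | apply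 BPred.or | apply BPred.iff | apply BPred.imp | refine BPred.ex ?_ | refine BPred.all ?_ | exact BPred.const _)) PUnit.unit
  intro p hp
  obtain ⟨q, hqp, k, hk⟩ := decide_mem hem (ι := ℕ) vN (fun _ => ⊤)
    (Q := fun h z => z = Mdl.mk h n) (by (repeat' first | exact BMap.id | apply BMap.fst | apply BMap.snd | exact BTerm.const _ | apply bterm_opair | apply BTerm.of | apply BPred.mem | apply BPred.eq | apply bp_has2 | apply bp_has3 | apply bp_has4 | apply bp_isTuple3 | apply bp_eq_pr | apply bp_isPair | apply bp_isUPair | apply bp_isFun | apply bp_injects | apply bp_leN | apply bp_sub | apply bp_isFin | apply bp_isTop | apply bp_isGrp | apply bp_isAbel | apply bp_isTopGrp | apply bp_isNbhd | apply bp_isFinSub | apply bp_inProd | apply bp_isSeqNb | apply bp_isSeqFs | apply bp_isOBdd | apply bp_isRestr | apply bp_isRule | apply bp_iWins | apply bp_isUMet | apply BPred.not | apply BPred.and | apply BPred.or | apply BPred.iff | apply BPred.imp | refine BPred.ex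 ?_ | refine BPred.all ?_ | exact BPred.const _)) (p := p)
    (fun h hh => ⟨Mdl.mk h n, (hp h hh).1, rfl⟩)
  have hk' : Fo em q fun h => nM h k = Mdl.mk h n := hk.imp fun h hh => hh.2
  obtain ⟨r, hrq, hr⟩ := sc_cond.all (D := fun i r => i < k → ∃ F : Finset (ℕ → ℤ),
    Fo em r fun h => ∀ u, Has (E h) (Mdl.mk h s) [nM h i, u] → u = Mdl.mk h (fstN B F))
    (fun i p q hqp H hi => (H hi).imp fun F hF => hF.mono hem hqp) q (by
      intro i q' hq'
      by_cases hi : i < k
      · obtain ⟨r, hr, F, hF⟩ := decide_val hem s n (p := q')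
          (fun h hh => (hp h (h.mono (hem.mono _ _ (hq'.trans hqp)) hh)).2) i
          (fun h hh => by
            have h1 := hk' h (h.mono (hem.mono _ _ hq') hh)
            change E h (nM h i) (Mdl.mk h n)
            rw [← h1]
            exact E_nM_iff.2 ⟨i, hi, rfl⟩)
        exact ⟨r, hr, fun _ => ⟨F, hF⟩⟩
      · exact ⟨q', le_rfl, fun h => absurd h hi⟩)
  choose! F hF using hr
  refine ⟨r, hrq.trans hqp, fun h hh => ?_⟩
  have h1 : Mdl.mk h s = Mdl.mk h (seqF B ((List.range k).map F)) := by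
    obtain ⟨Y, hY⟩ := (hp h (h.mono (hem.mono _ _ (hrq.trans hqp)) hh)).2.1
    rw [← hk' h (h.mono (hem.mono _ _ hrq) hh)] at hY
    refine eq_seqF _ (Y := Y) (by simpa using hY) fun i hi u hu => ?_
    have hi' : i < k := by simpa using hi
    simpa using hF i hi' h hh u hu
  change E h (Mdl.mk h s) _
  rw [h1]
  exact E_of_coe (e := seqF B) (i := (List.range k).map F) h.top'

/-- Deciding a sequence of finite subsets of the group. -/
theorem decide_seq (A : BName B) {p : Cond}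
    (H : Fo em p fun h => IsSeqOf (E h) (wM h)
      (IsFinSub (E h) (wM h) (Mdl.mk h (grN (gv em)))) (Mdl.mk h A)) :
    ∃ q, q ≤ p ∧ ∃ F : ℕ → Finset (ℕ → ℤ), ∀ i, Fo em q fun h => ∀ u,
      Has (E h) (Mdl.mk h A) [nM h i, u] → u = Mdl.mk h (fstN B (F i)) := by
  obtain ⟨q, hq, h1⟩ := sc_cond.all (D := fun i r => ∃ F : Finset (ℕ → ℤ),
    Fo em r fun h => ∀ u, Has (E h) (Mdl.mk h A) [nM h i, u] → u = Mdl.mk h (fstN B F))
    (fun i p q hqp H => H.imp fun F hF => hF.mono hem hqp) p (by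
      intro i q' hq'
      exact decide_val hem A (omN B) (p := q')
        (fun h hh => H h (h.mono (hem.mono _ _ hq') hh)) i (fun h hh => E_nM h i))
  choose F hF using h1
  exact ⟨q, hq, F, hF⟩

end forcing

end Pool.Agent.MP_b00c97_gt.YS
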