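import Pool.Agent.MP_b00c97_gt.YS.Defs

/-! The group and the ultrametric. -/

set_option autoImplicit false
set_option linter.unusedVariables false
set_option linter.unusedSectionVars false
set_option linter.unreachableTactic false
set_option linter.unusedTactic false

namespace Pool.Agent.MP_b00c97_gt.YS

open Filter MeasureTheory Pool.Agent.BVM Pool.Agent.BVM.BName Pool.Agent.SetModel
  Pool.Agent.MP63050e Pool.Agent.MP7e7dde Pool.Agent.MP9096b7 Pool.Agent.MP_b00c97_gt.Mod
  Pool.Agent.MP_b00c97_gt.FO

variable {B : Type} [CompleteBooleanAlgebra B]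

section

theorem has_mulN (x y : ℕ → ℤ) (h : Ult B) (z : Mdl h) :
    Has (E h) (Mdl.mk h (mulN B)) [Mdl.mk h (nm x), Mdl.mk h (nm y), z] ↔
      z = Mdl.mk h (nm (x + y)) := by
  constructor
  · intro H
    rw [has_iff (by simp)] at H
    refine forall_mem' (P := fun h p => ∀ z, p = pr h (Mdl.mk h (nm x)) (pr h (Mdl.mk h (nm y)) z) →
      z = Mdl.mk h (nm (x + y)))
      (fun p : (ℕ → ℤ) × (ℕ → ℤ) => opair (nm p.1) (opair (nm p.2) (nm (p.1 + p.2))))
      (fun _ => ⊤) ?_ ?_ h _ H _ rfl
    · refine BPred.all (BPred.imp ?_ ?_)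
      · exact BPred.eq BTerm.id.fst (bterm_opair (BTerm.const _)
          (bterm_opair (BTerm.const _) BTerm.snd))
      · (repeat' first | exact BMap.id | apply BMap.fst | apply BMap.snd | exact BTerm.const _ | apply bterm_opair | apply BTerm.of | apply BPred.mem | apply BPred.eq | apply bp_has2 | apply bp_has3 | apply bp_has4 | apply bp_isTuple3 | apply bp_eq_pr | apply bp_isPair | apply bp_isUPair | apply bp_isFun | apply bp_injects | apply bp_leN | apply bp_sub | apply bp_isFin | apply bp_isTop | apply bp_isGrp | apply bp_isAbel | apply bp_isTopGrp | apply bp_isNbhd | apply bp_isFinSub | apply bp_inProd | apply bp_isSeqNb | apply bp_isSeqFs | apply bp_isOBdd | apply bp_isRestr | apply bp_isRule | apply bp_iWins | apply bp_isUMet | apply BPred.not | apply BPred.and | apply BPred.or | apply BPred.iff | apply BPred.imp | refine BPred.ex ?_ | refine BPred.all ?_ | exact BPred.const _)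
    · intro h p _ z hz
      obtain ⟨h1, h2⟩ := pr_inj.1 (show pr h (Mdl.mk h (nm p.1)) (pr h (Mdl.mk h (nm p.2))
        (Mdl.mk h (nm (p.1 + p.2)))) = pr h (Mdl.mk h (nm x)) (pr h (Mdl.mk h (nm y)) z) from hz)
      obtain ⟨h2, h3⟩ := pr_inj.1 h2
      rw [nm_inj] at h1 h2
      rw [← h3, h1, h2]
  · rintro rfl
    rw [has_iff (by simp)]
    exact E_of_coe (e := fun p : (ℕ → ℤ) × (ℕ → ℤ) =>
      opair (nm p.1) (opair (nm p.2) (nm (p.1 + p.2)))) (i := (x, y)) h.top'

theorem has_deltaN (x y : ℕ → ℤ) (h : Ult B) (z : Mdl h) :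
    Has (E h) (Mdl.mk h (deltaN B)) [Mdl.mk h (nm x), Mdl.mk h (nm y), z] ↔
      z = Mdl.mk h (fdN B x y) := by
  constructor
  · intro H
    rw [has_iff (by simp)] at H
    refine forall_mem' (P := fun h p => ∀ z, p = pr h (Mdl.mk h (nm x)) (pr h (Mdl.mk h (nm y)) z) →
      z = Mdl.mk h (fdN B x y))
      (fun p : (ℕ → ℤ) × (ℕ → ℤ) => opair (nm p.1) (opair (nm p.2) (fdN B p.1 p.2)))
      (fun _ => ⊤) ?_ ?_ h _ H _ rfl
    · refine BPred.all (BPred.imp ?_ ?_)
      · exact BPred.eq BTerm.id.fst (bterm_opair (BTerm.const _)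
          (bterm_opair (BTerm.const _) BTerm.snd))
      · (repeat' first | exact BMap.id | apply BMap.fst | apply BMap.snd | exact BTerm.const _ | apply bterm_opair | apply BTerm.of | apply BPred.mem | apply BPred.eq | apply bp_has2 | apply bp_has3 | apply bp_has4 | apply bp_isTuple3 | apply bp_eq_pr | apply bp_isPair | apply bp_isUPair | apply bp_isFun | apply bp_injects | apply bp_leN | apply bp_sub | apply bp_isFin | apply bp_isTop | apply bp_isGrp | apply bp_isAbel | apply bp_isTopGrp | apply bp_isNbhd | apply bp_isFinSub | apply bp_inProd | apply bp_isSeqNb | apply bp_isSeqFs | apply bp_isOBdd | apply bp_isRestr | apply bp_isRule | apply bp_iWins | apply bp_isUMet | apply BPred.not | apply BPred.and | apply BPred.or | apply BPred.iff | apply BPred.imp | refine BPred.ex ?_ | refine BPred.all ?_ | exact BPred.const _)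
    · intro h p _ z hz
      obtain ⟨h1, h2⟩ := pr_inj.1 (show pr h (Mdl.mk h (nm p.1)) (pr h (Mdl.mk h (nm p.2))
        (Mdl.mk h (fdN B p.1 p.2))) = pr h (Mdl.mk h (nm x)) (pr h (Mdl.mk h (nm y)) z) from hz)
      obtain ⟨h2, h3⟩ := pr_inj.1 h2
      rw [nm_inj] at h1 h2
      rw [← h3, h1, h2]
  · rintro rfl
    rw [has_iff (by simp)]
    exact E_of_coe (e := fun p : (ℕ → ℤ) × (ℕ → ℤ) =>
      opair (nm p.1) (opair (nm p.2) (fdN B p.1 p.2))) (i := (x, y)) h.top'

theorem le_fdN (x y : ℕ → ℤ) (h : Ult B) (n : ℕ) :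
    LeN (E h) (nM h n) (Mdl.mk h (fdN B x y)) ↔ ∀ i < n, x i = y i := by
  unfold fdN
  split_ifs with H
  · rw [leN_nM, Nat.le_find_iff]
    simp only [not_not]
  · push Not at H
    exact ⟨fun _ i _ => H i, fun _ => Or.inl (E_nM h n)⟩

theorem E_ballN (v : (ℕ → ℤ) → B) (a : ℕ → ℤ) (n : ℕ) (x : ℕ → ℤ) (h : Ult B) :
    E h (Mdl.mk h (nm x)) (Mdl.mk h (ballN v a n)) ↔ h.V (v x) ∧ ∀ i < n, x i = a i := by
  rw [ballN, E_chk, h.inf', V_tv]

theorem fdN_symm (x y : ℕ → ℤ) : fdN B x y = fdN B y x := by
  classical
  by_cases H : ∃ n, x n ≠ y n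
  · have H' : ∃ n, y n ≠ x n := H.imp fun _ h => h.symm
    unfold fdN
    rw [dif_pos H, dif_pos H']
    have : Nat.find H = Nat.find H' := Nat.find_congr' fun {n} => ne_comm
    rw [this]
  · have H' : ¬ ∃ n, y n ≠ x n := fun h => H (h.imp fun _ h => h.symm)
    unfold fdN
    rw [dif_neg H, dif_neg H']

theorem eq_fdN (x y : ℕ → ℤ) (h : Ult B) : wM h = Mdl.mk h (fdN B x y) ↔ x = y := by
  constructor
  · intro H
    funext i
    refine (le_fdN x y h (i + 1)).1 ?_ i (Nat.lt_succ_self i)
    rw [← H]
    exact Or.inl (E_nM h _)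
  · rintro rfl
    unfold fdN
    rw [dif_neg (by simp)]

theorem fdN_mem (x y : ℕ → ℤ) (h : Ult B) :
    E h (Mdl.mk h (fdN B x y)) (wM h) ∨ Mdl.mk h (fdN B x y) = wM h := by
  unfold fdN
  split_ifs with H
  · exact Or.inl (E_nM h _)
  · exact Or.inr rfl

variable {v : (ℕ → ℤ) → B} (hv : IsGV v)

include hv

theorem gr_add {h : Ult B} {a b : ℕ → ℤ} (ha : h.V (v a)) (hb : h.V (v b)) : h.V (v (a + b)) :=
  h.mono (hv.add a b) ((h.inf' _ _).2 ⟨ha, hb⟩)

theorem isGrp (h : Ult B) :
    IsGrp (E h) (Mdl.mk h (grN v)) (Mdl.mk h (mulN B)) (Mdl.mk h (nm (0 : ℕ → ℤ))) := by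
  refine ⟨?_, ?_, ?_, ?_, ?_⟩
  · intro x y hx
    revert y
    refine forall_chk v (P := fun h x => ∀ y, E h y (Mdl.mk h (grN v)) →
      ∃ z, E h z (Mdl.mk h (grN v)) ∧ ∀ z', Has (E h) (Mdl.mk h (mulN B)) [x, y, z'] ↔ z' = z)
      (by (repeat' first | exact BMap.id | apply BMap.fst | apply BMap.snd | exact BTerm.const _ | apply bterm_opair | apply BTerm.of | apply BPred.mem | apply BPred.eq | apply bp_has2 | apply bp_has3 | apply bp_has4 | apply bp_isTuple3 | apply bp_eq_pr | apply bp_isPair | apply bp_isUPair | apply bp_isFun | apply bp_injects | apply bp_leN | apply bp_sub | apply bp_isFin | apply bp_isTop | apply bp_isGrp | apply bp_isAbel | apply bp_isTopGrp | apply bp_isNbhd | apply bp_isFinSub | apply bp_inProd | apply bp_isSeqNb | apply bp_isSeqFs | apply bp_isOBdd | apply bp_isRestr | apply bp_isRule | apply bp_iWins | apply bp_isUMet | apply BPred.not | apply BPred.and | apply BPred.or | apply BPred.iff | apply BPred.imp | refine BPred.ex ?_ | refine BPred.all ?_ | exact BPred.const _)) clop_true ?_ h trivial x hx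
    intro h _ a ha
    refine forall_chk v (P := fun h y => ∃ z, E h z (Mdl.mk h (grN v)) ∧
      ∀ z', Has (E h) (Mdl.mk h (mulN B)) [Mdl.mk h (nm a), y, z'] ↔ z' = z)
      (by (repeat' first | exact BMap.id | apply BMap.fst | apply BMap.snd | exact BTerm.const _ | apply bterm_opair | apply BTerm.of | apply BPred.mem | apply BPred.eq | apply bp_has2 | apply bp_has3 | apply bp_has4 | apply bp_isTuple3 | apply bp_eq_pr | apply bp_isPair | apply bp_isUPair | apply bp_isFun | apply bp_injects | apply bp_leN | apply bp_sub | apply bp_isFin | apply bp_isTop | apply bp_isGrp | apply bp_isAbel | apply bp_isTopGrp | apply bp_isNbhd | apply bp_isFinSub | apply bp_inProd | apply bp_isSeqNb | apply bp_isSeqFs | apply bp_isOBdd | apply bp_isRestr | apply bp_isRule | apply bp_iWins | apply bp_isUMet | apply BPred.not | apply BPred.and | apply BPred.or | apply BPred.iff | apply BPred.imp | refine BPred.ex ?_ | refine BPred.all ?_ | exact BPred.const _)) (clop_V (v a)) ?_ h ha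
    intro h ha b hb
    exact ⟨Mdl.mk h (nm (a + b)), E_chk.2 (gr_add hv ha hb), fun z' => has_mulN a b h z'⟩
  · intro x y z s t hx
    revert y z s t
    refine forall_chk v (P := fun h x => ∀ y z s t, E h y (Mdl.mk h (grN v)) →
      E h z (Mdl.mk h (grN v)) → Has (E h) (Mdl.mk h (mulN B)) [x, y, s] →
      Has (E h) (Mdl.mk h (mulN B)) [y, z, t] → ∃ r, Has (E h) (Mdl.mk h (mulN B)) [s, z, r] ∧
        Has (E h) (Mdl.mk h (mulN B)) [x, t, r])
      (by (repeat' first | exact BMap.id | apply BMap.fst | apply BMap.snd | exact BTerm.const _ | apply bterm_opair | apply BTerm.of | apply BPred.mem | apply BPred.eq | apply bp_has2 | apply bp_has3 | apply bp_has4 | apply bp_isTuple3 | apply bp_eq_pr | apply bp_isPair | apply bp_isUPair | apply bp_isFun | apply bp_injects | apply bp_leN | apply bp_sub | apply bp_isFin | apply bp_isTop | apply bp_isGrp | apply bp_isAbel | apply bp_isTopGrp | apply bp_isNbhd | apply bp_isFinSub | apply bp_inProd | apply bp_isSeqNb | apply bp_isSeqFs | apply bp_isOBdd | apply bp_isRestr | apply bp_isRule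 | apply bp_iWins | apply bp_isUMet | apply BPred.not | apply BPred.and | apply BPred.or | apply BPred.iff | apply BPred.imp | refine BPred.ex ?_ | refine BPred.all ?_ | exact BPred.const _)) clop_true ?_ h trivial x hx
    intro h _ a ha y z s t hy
    revert z s t
    refine forall_chk v (P := fun h y => ∀ z s t,
      E h z (Mdl.mk h (grN v)) → Has (E h) (Mdl.mk h (mulN B)) [Mdl.mk h (nm a), y, s] →
      Has (E h) (Mdl.mk h (mulN B)) [y, z, t] → ∃ r, Has (E h) (Mdl.mk h (mulN B)) [s, z, r] ∧
        Has (E h) (Mdl.mk h (mulN B)) [Mdl.mk h (nm a), t, r])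
      (by (repeat' first | exact BMap.id | apply BMap.fst | apply BMap.snd | exact BTerm.const _ | apply bterm_opair | apply BTerm.of | apply BPred.mem | apply BPred.eq | apply bp_has2 | apply bp_has3 | apply bp_has4 | apply bp_isTuple3 | apply bp_eq_pr | apply bp_isPair | apply bp_isUPair | apply bp_isFun | apply bp_injects | apply bp_leN | apply bp_sub | apply bp_isFin | apply bp_isTop | apply bp_isGrp | apply bp_isAbel | apply bp_isTopGrp | apply bp_isNbhd | apply bp_isFinSub | apply bp_inProd | apply bp_isSeqNb | apply bp_isSeqFs | apply bp_isOBdd | apply bp_isRestr | apply bp_isRule | apply bp_iWins | apply bp_isUMet | apply BPred.not | apply BPred.and | apply BPred.or | apply BPred.iff | apply BPred.imp | refine BPred.ex ?_ | refine BPred.all ?_ | exact BPred.const _)) clop_true ?_ h trivial y hy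
    intro h _ b hb z s t hz
    revert s t
    refine forall_chk v (P := fun h z => ∀ s t,
      Has (E h) (Mdl.mk h (mulN B)) [Mdl.mk h (nm a), Mdl.mk h (nm b), s] →
      Has (E h) (Mdl.mk h (mulN B)) [Mdl.mk h (nm b), z, t] →
      ∃ r, Has (E h) (Mdl.mk h (mulN B)) [s, z, r] ∧
        Has (E h) (Mdl.mk h (mulN B)) [Mdl.mk h (nm a), t, r])
      (by (repeat' first | exact BMap.id | apply BMap.fst | apply BMap.snd | exact BTerm.const _ | apply bterm_opair | apply BTerm.of | apply BPred.mem | apply BPred.eq | apply bp_has2 | apply bp_has3 | apply bp_has4 | apply bp_isTuple3 | apply bp_eq_pr | apply bp_isPair | apply bp_isUPair | apply bp_isFun | apply bp_injects | apply bp_leN | apply bp_sub | apply bp_isFin | apply bp_isTop | apply bp_isGrp | apply bp_isAbel | apply bp_isTopGrp | apply bp_isNbhd | apply bp_isFinSub | apply bp_inProd | apply bp_isSeqNb | apply bp_isSeqFs | apply bp_isOBdd | apply bp_isRestr | apply bp_isRule | apply bp_iWins | apply bp_isUMet | apply BPred.not | apply BPred.and | apply BPred.or | apply BPred.iff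 | apply BPred.imp | refine BPred.ex ?_ | refine BPred.all ?_ | exact BPred.const _)) clop_true ?_ h trivial z hz
    intro h _ c hc s t hs ht
    rw [has_mulN] at hs ht
    subst hs ht
    exact ⟨_, (has_mulN _ _ _ _).2 rfl, (has_mulN _ _ _ _).2 (by rw [add_assoc])⟩
  · exact E_chk.2 (by rw [hv.zero]; exact h.top')
  · intro x hx
    refine forall_chk v (P := fun h x =>
      Has (E h) (Mdl.mk h (mulN B)) [Mdl.mk h (nm (0 : ℕ → ℤ)), x, x] ∧
        Has (E h) (Mdl.mk h (mulN B)) [x, Mdl.mk h (nm (0 : ℕ → ℤ)), x])
      (by (repeat' first | exact BMap.id | apply BMap.fst | apply BMap.snd | exact BTerm.const _ | apply bterm_opair | apply BTerm.of | apply BPred.mem | apply BPred.eq | apply bp_has2 | apply bp_has3 | apply bp_has4 | apply bp_isTuple3 | apply bp_eq_pr | apply bp_isPair | apply bp_isUPair | apply bp_isFun | apply bp_injects | apply bp_leN | apply bp_sub | apply bp_isFin | apply bp_isTop | apply bp_isGrp | apply bp_isAbel | apply bp_isTopGrp | apply bp_isNbhd | apply bp_isFinSub | apply bp_inProd | apply bp_isSeqNb | apply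 bp_isSeqFs | apply bp_isOBdd | apply bp_isRestr | apply bp_isRule | apply bp_iWins | apply bp_isUMet | apply BPred.not | apply BPred.and | apply BPred.or | apply BPred.iff | apply BPred.imp | refine BPred.ex ?_ | refine BPred.all ?_ | exact BPred.const _)) clop_true ?_ h trivial x hx
    intro h _ a ha
    exact ⟨(has_mulN _ _ _ _).2 (by rw [zero_add]), (has_mulN _ _ _ _).2 (by rw [add_zero])⟩
  · intro x hx
    refine forall_chk v (P := fun h x => ∃ y, E h y (Mdl.mk h (grN v)) ∧
      Has (E h) (Mdl.mk h (mulN B)) [x, y, Mdl.mk h (nm (0 : ℕ → ℤ))] ∧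
        Has (E h) (Mdl.mk h (mulN B)) [y, x, Mdl.mk h (nm (0 : ℕ → ℤ))])
      (by (repeat' first | exact BMap.id | apply BMap.fst | apply BMap.snd | exact BTerm.const _ | apply bterm_opair | apply BTerm.of | apply BPred.mem | apply BPred.eq | apply bp_has2 | apply bp_has3 | apply bp_has4 | apply bp_isTuple3 | apply bp_eq_pr | apply bp_isPair | apply bp_isUPair | apply bp_isFun | apply bp_injects | apply bp_leN | apply bp_sub | apply bp_isFin | apply bp_isTop | apply bp_isGrp | apply bp_isAbel | apply bp_isTopGrp | apply bp_isNbhd | apply bp_isFinSub | apply bp_inProd | apply bp_isSeqNb | apply bp_isSeqFs | apply bp_isOBdd | apply bp_isRestr | apply bp_isRule | apply bp_iWins | apply bp_isUMet | apply BPred.not | apply BPred.and | apply BPred.or | apply BPred.iff | apply BPred.imp | refine BPred.ex ?_ | refine BPred.all ?_ | exact BPred.const _)) clop_true ?_ h trivial x hx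
    intro h _ a ha
    exact ⟨Mdl.mk h (nm (-a)), E_chk.2 (h.mono (hv.neg a) ha),
      (has_mulN _ _ _ _).2 (by rw [add_neg_cancel]),
      (has_mulN _ _ _ _).2 (by rw [neg_add_cancel])⟩

theorem isAbel (h : Ult B) : IsAbel (E h) (Mdl.mk h (grN v)) (Mdl.mk h (mulN B)) := by
  intro x y z hx
  revert y z
  refine forall_chk v (P := fun h x => ∀ y z, E h y (Mdl.mk h (grN v)) →
    Has (E h) (Mdl.mk h (mulN B)) [x, y, z] → Has (E h) (Mdl.mk h (mulN B)) [y, x, z])
    (by (repeat' first | exact BMap.id | apply BMap.fst | apply BMap.snd | exact BTerm.const _ | apply bterm_opair | apply BTerm.of | apply BPred.mem | apply BPred.eq | apply bp_has2 | apply bp_has3 | apply bp_has4 | apply bp_isTuple3 | apply bp_eq_pr | apply bp_isPair | apply bp_isUPair | apply bp_isFun | apply bp_injects | apply bp_leN | apply bp_sub | apply bp_isFin | apply bp_isTop | apply bp_isGrp | apply bp_isAbel | apply bp_isTopGrp | apply bp_isNbhd | apply bp_isFinSub | apply bp_inProd | apply bp_isSeqNb | apply bp_isSeqFs | apply bp_isOBdd | apply bp_isRestr |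 apply bp_isRule | apply bp_iWins | apply bp_isUMet | apply BPred.not | apply BPred.and | apply BPred.or | apply BPred.iff | apply BPred.imp | refine BPred.ex ?_ | refine BPred.all ?_ | exact BPred.const _)) clop_true ?_ h trivial x hx
  intro h _ a ha y z hy
  revert z
  refine forall_chk v (P := fun h y => ∀ z,
    Has (E h) (Mdl.mk h (mulN B)) [Mdl.mk h (nm a), y, z] →
      Has (E h) (Mdl.mk h (mulN B)) [y, Mdl.mk h (nm a), z])
    (by (repeat' first | exact BMap.id | apply BMap.fst | apply BMap.snd | exact BTerm.const _ | apply bterm_opair | apply BTerm.of | apply BPred.mem | apply BPred.eq | apply bp_has2 | apply bp_has3 | apply bp_has4 | apply bp_isTuple3 | apply bp_eq_pr | apply bp_isPair | apply bp_isUPair | apply bp_isFun | apply bp_injects | apply bp_leN | apply bp_sub | apply bp_isFin | apply bp_isTop | apply bp_isGrp | apply bp_isAbel | apply bp_isTopGrp | apply bp_isNbhd | apply bp_isFinSub | apply bp_inProd | apply bp_isSeqNb | apply bp_isSeqFs | apply bp_isOBdd | apply bp_isRestr | apply bp_isRule | apply bp_iWins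 | apply bp_isUMet | apply BPred.not | apply BPred.and | apply BPred.or | apply BPred.iff | apply BPred.imp | refine BPred.ex ?_ | refine BPred.all ?_ | exact BPred.const _)) clop_true ?_ h trivial y hy
  intro h _ b hb z hz
  rw [has_mulN] at hz ⊢
  rw [hz, add_comm]

theorem isUMet (h : Ult B) :
    IsUMet (E h) (wM h) (Mdl.mk h (grN v)) (Mdl.mk h (topN v)) (Mdl.mk h (deltaN B)) := by
  refine ⟨?_, ?_, ?_, ?_, ?_⟩
  · intro x y hx
    revert y
    refine forall_chk v (P := fun h x => ∀ y, E h y (Mdl.mk h (grN v)) →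
      ∃ k, (E h k (wM h) ∨ k = wM h) ∧
        ∀ k', Has (E h) (Mdl.mk h (deltaN B)) [x, y, k'] ↔ k' = k)
      (by (repeat' first | exact BMap.id | apply BMap.fst | apply BMap.snd | exact BTerm.const _ | apply bterm_opair | apply BTerm.of | apply BPred.mem | apply BPred.eq | apply bp_has2 | apply bp_has3 | apply bp_has4 | apply bp_isTuple3 | apply bp_eq_pr | apply bp_isPair | apply bp_isUPair | apply bp_isFun | apply bp_injects | apply bp_leN | apply bp_sub | apply bp_isFin | apply bp_isTop | apply bp_isGrp | apply bp_isAbel | apply bp_isTopGrp | apply bp_isNbhd | apply bp_isFinSub | apply bp_inProd | apply bp_isSeqNb | apply bp_isSeqFs | apply bp_isOBdd | apply bp_isRestr | apply bp_isRule | apply bp_iWins | apply bp_isUMet | apply BPred.not | apply BPred.and | apply BPred.or | apply BPred.iff | apply BPred.imp | refine BPred.ex ?_ | refine BPred.all ?_ | exact BPred.const _)) clop_true ?_ h trivial x hx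
    intro h _ a ha
    refine forall_chk v (P := fun h y => ∃ k, (E h k (wM h) ∨ k = wM h) ∧
        ∀ k', Has (E h) (Mdl.mk h (deltaN B)) [Mdl.mk h (nm a), y, k'] ↔ k' = k)
      (by (repeat' first | exact BMap.id | apply BMap.fst | apply BMap.snd | exact BTerm.const _ | apply bterm_opair | apply BTerm.of | apply BPred.mem | apply BPred.eq | apply bp_has2 | apply bp_has3 | apply bp_has4 | apply bp_isTuple3 | apply bp_eq_pr | apply bp_isPair | apply bp_isUPair | apply bp_isFun | apply bp_injects | apply bp_leN | apply bp_sub | apply bp_isFin | apply bp_isTop | apply bp_isGrp | apply bp_isAbel | apply bp_isTopGrp | apply bp_isNbhd | apply bp_isFinSub | apply bp_inProd | apply bp_isSeqNb | apply bp_isSeqFs | apply bp_isOBdd | apply bp_isRestr | apply bp_isRule | apply bp_iWins | apply bp_isUMet | apply BPred.not | apply BPred.and | apply BPred.or | apply BPred.iff | apply BPred.imp | refine BPred.ex ?_ | refine BPred.all ?_ | exact BPred.const _)) clop_true ?_ h trivial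
    intro h _ b hb
    exact ⟨Mdl.mk h (fdN B a b), fdN_mem a b h, fun k' => has_deltaN a b h k'⟩
  · intro x y hx
    revert y
    refine forall_chk v (P := fun h x => ∀ y, E h y (Mdl.mk h (grN v)) →
      (Has (E h) (Mdl.mk h (deltaN B)) [x, y, wM h] ↔ x = y))
      (by (repeat' first | exact BMap.id | apply BMap.fst | apply BMap.snd | exact BTerm.const _ | apply bterm_opair | apply BTerm.of | apply BPred.mem | apply BPred.eq | apply bp_has2 | apply bp_has3 | apply bp_has4 | apply bp_isTuple3 | apply bp_eq_pr | apply bp_isPair | apply bp_isUPair | apply bp_isFun | apply bp_injects | apply bp_leN | apply bp_sub | apply bp_isFin | apply bp_isTop | apply bp_isGrp | apply bp_isAbel | apply bp_isTopGrp | apply bp_isNbhd | apply bp_isFinSub | apply bp_inProd | apply bp_isSeqNb | apply bp_isSeqFs | apply bp_isOBdd | apply bp_isRestr | apply bp_isRule | apply bp_iWins | apply bp_isUMet | apply BPred.not | apply BPred.and | apply BPred.or | apply BPred.iff | apply BPred.imp | refine BPred.ex ?_ | refine BPred.all ?_ | exact BPred.const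 _)) clop_true ?_ h trivial x hx
    intro h _ a ha
    refine forall_chk v (P := fun h y =>
      (Has (E h) (Mdl.mk h (deltaN B)) [Mdl.mk h (nm a), y, wM h] ↔ Mdl.mk h (nm a) = y))
      (by (repeat' first | exact BMap.id | apply BMap.fst | apply BMap.snd | exact BTerm.const _ | apply bterm_opair | apply BTerm.of | apply BPred.mem | apply BPred.eq | apply bp_has2 | apply bp_has3 | apply bp_has4 | apply bp_isTuple3 | apply bp_eq_pr | apply bp_isPair | apply bp_isUPair | apply bp_isFun | apply bp_injects | apply bp_leN | apply bp_sub | apply bp_isFin | apply bp_isTop | apply bp_isGrp | apply bp_isAbel | apply bp_isTopGrp | apply bp_isNbhd | apply bp_isFinSub | apply bp_inProd | apply bp_isSeqNb | apply bp_isSeqFs | apply bp_isOBdd | apply bp_isRestr | apply bp_isRule | apply bp_iWins | apply bp_isUMet | apply BPred.not | apply BPred.and | apply BPred.or | apply BPred.iff | apply BPred.imp | refine BPred.ex ?_ | refine BPred.all ?_ | exact BPred.const _)) clop_true ?_ h trivial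
    intro h _ b hb
    rw [has_deltaN, eq_fdN, nm_inj]
  · intro x y k hx
    revert y k
    refine forall_chk v (P := fun h x => ∀ y k, E h y (Mdl.mk h (grN v)) →
      Has (E h) (Mdl.mk h (deltaN B)) [x, y, k] → Has (E h) (Mdl.mk h (deltaN B)) [y, x, k])
      (by (repeat' first | exact BMap.id | apply BMap.fst | apply BMap.snd | exact BTerm.const _ | apply bterm_opair | apply BTerm.of | apply BPred.mem | apply BPred.eq | apply bp_has2 | apply bp_has3 | apply bp_has4 | apply bp_isTuple3 | apply bp_eq_pr | apply bp_isPair | apply bp_isUPair | apply bp_isFun | apply bp_injects | apply bp_leN | apply bp_sub | apply bp_isFin | apply bp_isTop | apply bp_isGrp | apply bp_isAbel | apply bp_isTopGrp | apply bp_isNbhd | apply bp_isFinSub | apply bp_inProd | apply bp_isSeqNb | apply bp_isSeqFs | apply bp_isOBdd | apply bp_isRestr | apply bp_isRule | apply bp_iWins | apply bp_isUMet | apply BPred.not | apply BPred.and | apply BPred.or | apply BPred.iff | apply BPred.imp | refine BPred.ex ?_ | refine BPred.all ?_ | exact BPred.const _))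 clop_true ?_ h trivial x hx
    intro h _ a ha y k hy
    revert k
    refine forall_chk v (P := fun h y => ∀ k,
      Has (E h) (Mdl.mk h (deltaN B)) [Mdl.mk h (nm a), y, k] →
        Has (E h) (Mdl.mk h (deltaN B)) [y, Mdl.mk h (nm a), k])
      (by (repeat' first | exact BMap.id | apply BMap.fst | apply BMap.snd | exact BTerm.const _ | apply bterm_opair | apply BTerm.of | apply BPred.mem | apply BPred.eq | apply bp_has2 | apply bp_has3 | apply bp_has4 | apply bp_isTuple3 | apply bp_eq_pr | apply bp_isPair | apply bp_isUPair | apply bp_isFun | apply bp_injects | apply bp_leN | apply bp_sub | apply bp_isFin | apply bp_isTop | apply bp_isGrp | apply bp_isAbel | apply bp_isTopGrp | apply bp_isNbhd | apply bp_isFinSub | apply bp_inProd | apply bp_isSeqNb | apply bp_isSeqFs | apply bp_isOBdd | apply bp_isRestr | apply bp_isRule | apply bp_iWins | apply bp_isUMet | apply BPred.not | apply BPred.and | apply BPred.or | apply BPred.iff | apply BPred.imp | refine BPred.ex ?_ | refine BPred.all ?_ | exact BPred.const _)) clop_true ?_ h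 trivial y hy
    intro h _ b hb k hk
    rw [has_deltaN] at hk ⊢
    rw [hk, fdN_symm]
  · intro x y z i j k n hx
    revert y z i j k n
    refine forall_chk v (P := fun h x => ∀ y z i j k n, E h y (Mdl.mk h (grN v)) →
      E h z (Mdl.mk h (grN v)) → Has (E h) (Mdl.mk h (deltaN B)) [x, y, i] →
      Has (E h) (Mdl.mk h (deltaN B)) [y, z, j] → Has (E h) (Mdl.mk h (deltaN B)) [x, z, k] →
      E h n (wM h) → LeN (E h) n i → LeN (E h) n j → LeN (E h) n k)
      (by (repeat' first | exact BMap.id | apply BMap.fst | apply BMap.snd | exact BTerm.const _ | apply bterm_opair | apply BTerm.of | apply BPred.mem | apply BPred.eq | apply bp_has2 | apply bp_has3 | apply bp_has4 | apply bp_isTuple3 | apply bp_eq_pr | apply bp_isPair | apply bp_isUPair | apply bp_isFun | apply bp_injects | apply bp_leN | apply bp_sub | apply bp_isFin | apply bp_isTop | apply bp_isGrp | apply bp_isAbel | apply bp_isTopGrp | apply bp_isNbhd | apply bp_isFinSub | apply bp_inProd | apply bp_isSeqNb | apply bp_isSeqFs | apply bp_isOBdd | apply bp_isRestr | apply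 bp_isRule | apply bp_iWins | apply bp_isUMet | apply BPred.not | apply BPred.and | apply BPred.or | apply BPred.iff | apply BPred.imp | refine BPred.ex ?_ | refine BPred.all ?_ | exact BPred.const _)) clop_true ?_ h trivial x hx
    intro h _ a ha y z i j k n hy
    revert z i j k n
    refine forall_chk v (P := fun h y => ∀ z i j k n,
      E h z (Mdl.mk h (grN v)) → Has (E h) (Mdl.mk h (deltaN B)) [Mdl.mk h (nm a), y, i] →
      Has (E h) (Mdl.mk h (deltaN B)) [y, z, j] →
      Has (E h) (Mdl.mk h (deltaN B)) [Mdl.mk h (nm a), z, k] →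
      E h n (wM h) → LeN (E h) n i → LeN (E h) n j → LeN (E h) n k)
      (by (repeat' first | exact BMap.id | apply BMap.fst | apply BMap.snd | exact BTerm.const _ | apply bterm_opair | apply BTerm.of | apply BPred.mem | apply BPred.eq | apply bp_has2 | apply bp_has3 | apply bp_has4 | apply bp_isTuple3 | apply bp_eq_pr | apply bp_isPair | apply bp_isUPair | apply bp_isFun | apply bp_injects | apply bp_leN | apply bp_sub | apply bp_isFin | apply bp_isTop | apply bp_isGrp | apply bp_isAbel | apply bp_isTopGrp | apply bp_isNbhd | apply bp_isFinSub | apply bp_inProd | apply bp_isSeqNb | apply bp_isSeqFs | apply bp_isOBdd | apply bp_isRestr | apply bp_isRule | apply bp_iWins | apply bp_isUMet | apply BPred.not | apply BPred.and | apply BPred.or | apply BPred.iff | apply BPred.imp | refine BPred.ex ?_ | refine BPred.all ?_ | exact BPred.const _)) clop_true ?_ h trivial y hy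
    intro h _ b hb z i j k n hz
    revert i j k n
    refine forall_chk v (P := fun h z => ∀ i j k n,
      Has (E h) (Mdl.mk h (deltaN B)) [Mdl.mk h (nm a), Mdl.mk h (nm b), i] →
      Has (E h) (Mdl.mk h (deltaN B)) [Mdl.mk h (nm b), z, j] →
      Has (E h) (Mdl.mk h (deltaN B)) [Mdl.mk h (nm a), z, k] →
      E h n (wM h) → LeN (E h) n i → LeN (E h) n j → LeN (E h) n k)
      (by (repeat' first | exact BMap.id | apply BMap.fst | apply BMap.snd | exact BTerm.const _ | apply bterm_opair | apply BTerm.of | apply BPred.mem | apply BPred.eq | apply bp_has2 | apply bp_has3 | apply bp_has4 | apply bp_isTuple3 | apply bp_eq_pr | apply bp_isPair | apply bp_isUPair | apply bp_isFun | apply bp_injects | apply bp_leN | apply bp_sub | apply bp_isFin | apply bp_isTop | apply bp_isGrp | apply bp_isAbel | apply bp_isTopGrp | apply bp_isNbhd | apply bp_isFinSub | apply bp_inProd | apply bp_isSeqNb | apply bp_isSeqFs | apply bp_isOBdd | apply bp_isRestr | apply bp_isRule | apply bp_iWins | apply bp_isUMet | apply BPred.not | apply BPred.and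 | apply BPred.or | apply BPred.iff | apply BPred.imp | refine BPred.ex ?_ | refine BPred.all ?_ | exact BPred.const _)) clop_true ?_ h trivial z hz
    intro h _ c hc i j k n hi hj hk hn
    rw [has_deltaN] at hi hj hk
    subst hi hj hk
    refine forall_om (P := fun h n => LeN (E h) n (Mdl.mk h (fdN B a b)) →
      LeN (E h) n (Mdl.mk h (fdN B b c)) → LeN (E h) n (Mdl.mk h (fdN B a c)))
      (by (repeat' first | exact BMap.id | apply BMap.fst | apply BMap.snd | exact BTerm.const _ | apply bterm_opair | apply BTerm.of | apply BPred.mem | apply BPred.eq | apply bp_has2 | apply bp_has3 | apply bp_has4 | apply bp_isTuple3 | apply bp_eq_pr | apply bp_isPair | apply bp_isUPair | apply bp_isFun | apply bp_injects | apply bp_leN | apply bp_sub | apply bp_isFin | apply bp_isTop | apply bp_isGrp | apply bp_isAbel | apply bp_isTopGrp | apply bp_isNbhd | apply bp_isFinSub | apply bp_inProd | apply bp_isSeqNb | apply bp_isSeqFs | apply bp_isOBdd | apply bp_isRestr | apply bp_isRule | apply bp_iWins | apply bp_isUMet | apply BPred.not | apply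 BPred.and | apply BPred.or | apply BPred.iff | apply BPred.imp | refine BPred.ex ?_ | refine BPred.all ?_ | exact BPred.const _)) clop_true ?_ h trivial n hn
    intro h _ n h1 h2
    rw [le_fdN] at h1 h2 ⊢
    exact fun i hi => (h1 i hi).trans (h2 i hi)
  · intro U
    exact E_topN v h U

end

end Pool.Agent.MP_b00c97_gt.YS
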