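import Pool.Agent.MP_b00c97_gt.YS.Strat

/-!
# MP_b00c97_gt: a model of ZFC in which Q1 has a positive answer
-/

set_option autoImplicit false

namespace Pool.Agent.MP_b00c97_gt.YS

open Pool.Agent.BVM Pool.Agent.BVM.BName Pool.Agent.SetModel Pool.Agent.MP63050e
  Pool.Agent.MP7e7dde Pool.Agent.MP9096b7 Pool.Agent.MP_b00c97_gt.Mod

/-- There is a model of ZFC in which player I has a winning strategy on some `o`-bounded abelian
topological group whose topology is given by an ultrametric. -/
theorem exists_q1Yes : ∃ (M : Type 1) (E : M → M → Prop), IsModelZFC E ∧ Q1Yes E := by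
  obtain ⟨B, _, em, h1, h2, h3, h4⟩ := exists_completion Cond
  have hem : DenseEmb em := ⟨h1, h2, h3, h4⟩
  obtain ⟨p⟩ := nonempty_cond
  obtain ⟨h, -⟩ := Ult.exists_of_ne_bot (h1 p)
  have hv := isGV hem
  exact ⟨Mdl h, BVM.E h, mod_zfc h, _, _, _, _, _, _, isOmega h, isTopGrp hv h, isAbel hv h,
    isUMet hv h, isOBdd hem h, iWins hem h⟩

end Pool.Agent.MP_b00c97_gt.YS
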