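import Pool.Agent.MP_b00c97_gt.YS.Top
import Pool.Agent.MP_b00c97_gt.YS.Fin
import Pool.Agent.MP_b00c97_gt.FO.Seq

/-!
# MP_b00c97_gt, part YS, block YE: the generic group is o-bounded
-/

set_option autoImplicit false
set_option linter.unusedVariables false
set_option linter.unusedSectionVars false
set_option linter.unreachableTactic false
set_option linter.unusedTactic false

namespace Pool.Agent.MP_b00c97_gt.YS

open Filter MeasureTheory Pool.Agent.BVM Pool.Agent.BVM.BName Pool.Agent.SetModel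
  Pool.Agent.MP63050e Pool.Agent.MP7e7dde Pool.Agent.MP9096b7 Pool.Agent.MP_b00c97_gt.Mod
  Pool.Agent.MP_b00c97_gt.FO

variable {B : Type} [CompleteBooleanAlgebra B]

theorem gv_of {em : Cond → B} {p : Cond} {x : ℕ → ℤ} (hx : x ∈ p.H) :
    Fo em p (fun h => h.V (gv em x)) :=
  fun h hh => h.iSup_of (fun p : {p : Cond // x ∈ p.H} => em p.1) ⟨p, hx⟩ hh

theorem compat_of_fo {em : Cond → B} (hem : DenseEmb em) {q r : Cond}
    (H : Fo em q (fun h => h.V (em r))) : ∃ s, s ≤ q ∧ s ≤ r := by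
  refine hem.compat q r ?_
  intro h0
  obtain ⟨k, hk⟩ := Ult.exists_of_ne_bot (hem.ne_bot q)
  have := (k.inf' _ _).2 ⟨hk, H k hk⟩
  rw [h0] at this
  exact k.bot this

theorem exists_of_gv {em : Cond → B} (hem : DenseEmb em) {p : Cond} {x : ℕ → ℤ}
    (h : Fo em p (fun h => h.V (gv em x))) : ∃ q, q ≤ p ∧ x ∈ q.H := by
  obtain ⟨q, hqp, r, hr⟩ := decide_iSup hem h
  obtain ⟨s, hs1, hs2⟩ := compat_of_fo hem hr
  exact ⟨s, hs1.trans hqp, hs2.1 r.2⟩

theorem isGV {em : Cond → B} (hem : DenseEmb em) : IsGV (gv em) := by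
  refine ⟨?_, fun x y => ?_, fun x => ?_⟩
  · rw [eq_top_iff]
    exact hem.le_of fun p _ => ⟨p, le_rfl, Ult.le_iff.2 (gv_of p.H.zero_mem)⟩
  · refine hem.le_of fun p hp => ?_
    obtain ⟨q, hqp, hxq⟩ := exists_of_gv hem (p := p) (x := x)
      fun h hh => h.mono (hp.trans inf_le_left) hh
    obtain ⟨r, hrq, hyr⟩ := exists_of_gv hem (p := q) (x := y)
      fun h hh => h.mono ((hem.mono _ _ hqp).trans (hp.trans inf_le_right)) hh
    exact ⟨r, hrq.trans hqp, Ult.le_iff.2 (gv_of (r.H.add_mem (hrq.1 hxq) hyr))⟩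
  · refine hem.le_of fun p hp => ?_
    obtain ⟨q, hqp, hxq⟩ := exists_of_gv hem (p := p) (x := x)
      fun h hh => h.mono hp hh
    exact ⟨q, hqp, Ult.le_iff.2 (gv_of (q.H.neg_mem hxq))⟩

/-! ### Neighbourhoods of `0` and balls -/

theorem exists_ball (v : (ℕ → ℤ) → B) (h : Ult B) {u : Mdl h}
    (hu : IsNbhd (E h) (Mdl.mk h (grN v)) (Mdl.mk h (nm (0 : ℕ → ℤ))) (Mdl.mk h (topN v)) u) :
    ∃ z, E h z (wM h) ∧ ∀ y k, E h y (Mdl.mk h (grN v)) →
      Has (E h) (Mdl.mk h (deltaN B)) [Mdl.mk h (nm (0 : ℕ → ℤ)), y, k] →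
        LeN (E h) z k → E h y u := by
  obtain ⟨-, O, hO, h0, hOu⟩ := hu
  obtain ⟨-, H⟩ := (E_topN v h O).1 hO
  obtain ⟨n, hn, H⟩ := H _ h0
  exact ⟨n, hn, fun y k hy hk hle => hOu _ (H y k hy hk hle)⟩

theorem ball_sub (v : (ℕ → ℤ) → B) (k : ℕ) (h : Ult B) (u : Mdl h)
    (hu : ∀ y z, E h y (Mdl.mk h (grN v)) →
      Has (E h) (Mdl.mk h (deltaN B)) [Mdl.mk h (nm (0 : ℕ → ℤ)), y, z] →
        LeN (E h) (nM h k) z → E h y u) : Sub (E h) (Mdl.mk h (ballN v 0 k)) u := by
  intro x hx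
  refine forall_mem' (P := fun h x => ∀ u, (∀ y z, E h y (Mdl.mk h (grN v)) →
      Has (E h) (Mdl.mk h (deltaN B)) [Mdl.mk h (nm (0 : ℕ → ℤ)), y, z] →
        LeN (E h) (nM h k) z → E h y u) → E h x u) nm _ ?_ ?_ h x hx u hu
  · (repeat' first | exact BMap.id | apply BMap.fst | apply BMap.snd | exact BTerm.const _ | apply bterm_opair | apply BTerm.of | apply BPred.mem | apply BPred.eq | apply bp_has2 | apply bp_has3 | apply bp_has4 | apply bp_isTuple3 | apply bp_eq_pr | apply bp_isPair | apply bp_isUPair | apply bp_isFun | apply bp_injects | apply bp_leN | apply bp_sub | apply bp_isFin | apply bp_isTop | apply bp_isGrp | apply bp_isAbel | apply bp_isTopGrp | apply bp_isNbhd | apply bp_isFinSub | apply bp_inProd | apply bp_isSeqNb | apply bp_isSeqFs | apply bp_isOBdd | apply bp_isRestr | apply bp_isRule | apply bp_iWins | apply bp_isUMet | apply BPred.not | apply BPred.and | apply BPred.or | apply BPred.iff | apply BPred.imp | refine BPred.ex ?_ | refine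 BPred.all ?_ | exact BPred.const _)
  · intro h x hx u hu
    rw [h.inf', V_tv] at hx
    refine hu _ (Mdl.mk h (fdN B 0 x)) (E_chk.2 hx.1) ((has_deltaN _ _ _ _).2 rfl) ?_
    rw [le_fdN]
    intro i hi
    exact (hx.2 i hi).symm

/-! ### Finite sets of sequences -/

theorem exists_fs (N b : ℕ) : ∃ F : Finset (ℕ → ℤ), (∀ x ∈ F, ∀ i, N ≤ i → x i = 0) ∧
    ∀ x : ℕ → ℤ, (∀ i, N ≤ i → x i = 0) → (∀ i < N, (x i).natAbs ≤ b) → x ∈ F := by
  classical
  refine ⟨(Fintype.piFinset (fun _ : Fin N => Finset.Icc (-(b : ℤ)) b)).image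
    (fun f i => if hi : i < N then f ⟨i, hi⟩ else 0), ?_, ?_⟩
  · intro x hx i hi
    obtain ⟨f, -, rfl⟩ := Finset.mem_image.1 hx
    exact dif_neg (not_lt.2 hi)
  · intro x h1 h2
    refine Finset.mem_image.2 ⟨fun i => x i, Fintype.mem_piFinset.2 fun i => ?_, ?_⟩
    · have := h2 i i.2
      rw [Finset.mem_Icc]
      omega
    · funext i
      by_cases hi : i < N
      · simp [hi]
      · simp [hi, h1 i (not_lt.1 hi)]

theorem natAbs_le_mx {x : ℕ → ℤ} {n i : ℕ} (hi : i < n) : (x i).natAbs ≤ mx x n :=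
  Finset.le_sup (f := fun i => (x i).natAbs) (Finset.mem_range.2 hi)

/-! ### o-boundedness -/

theorem decide_ball {em : Cond → B} (hem : DenseEmb em) (U : BName B) {p : Cond}
    (H : Fo em p fun h => IsSeqOf (E h) (wM h) (IsNbhd (E h) (Mdl.mk h (grN (gv em)))
      (Mdl.mk h (nm (0 : ℕ → ℤ))) (Mdl.mk h (topN (gv em)))) (Mdl.mk h U)) (n : ℕ) :
    ∃ q, q ≤ p ∧ ∃ k : ℕ, Fo em q fun h => ∀ u, Has (E h) (Mdl.mk h U) [nM h n, u] →
      Sub (E h) (Mdl.mk h (ballN (gv em) 0 k)) u := by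
  obtain ⟨q, hqp, k, hk⟩ := decide_mem hem (ι := ℕ) vN (fun _ => ⊤)
    (Q := fun h z => ∀ u, Has (E h) (Mdl.mk h U) [nM h n, u] →
      ∀ y k, E h y (Mdl.mk h (grN (gv em))) →
        Has (E h) (Mdl.mk h (deltaN B)) [Mdl.mk h (nm (0 : ℕ → ℤ)), y, k] →
          LeN (E h) z k → E h y u) (by (repeat' first | exact BMap.id | apply BMap.fst | apply BMap.snd | exact BTerm.const _ | apply bterm_opair | apply BTerm.of | apply BPred.mem | apply BPred.eq | apply bp_has2 | apply bp_has3 | apply bp_has4 | apply bp_isTuple3 | apply bp_eq_pr | apply bp_isPair | apply bp_isUPair | apply bp_isFun | apply bp_injects | apply bp_leN | apply bp_sub | apply bp_isFin | apply bp_isTop | apply bp_isGrp | apply bp_isAbel | apply bp_isTopGrp | apply bp_isNbhd | apply bp_isFinSub | apply bp_inProd | apply bp_isSeqNb | apply bp_isSeqFs | apply bp_isOBdd | apply bp_isRestr | apply bp_isRule | apply bp_iWins | apply bp_isUMet | apply BPred.not | apply BPred.and | apply BPred.or |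 apply BPred.iff | apply BPred.imp | refine BPred.ex ?_ | refine BPred.all ?_ | exact BPred.const _)) (p := p) (by
      intro h hh
      obtain ⟨⟨Y, hY⟩, hN⟩ := H h hh
      obtain ⟨u, hu, huu⟩ := hY.2 _ (E_nM h n)
      obtain ⟨z, hz, hz'⟩ := exists_ball (gv em) h (hN _ _ (E_nM h n) hu)
      refine ⟨z, hz, fun u' hu' => ?_⟩
      rw [huu u' hu']
      exact hz')
  exact ⟨q, hqp, k, fun h hh u hu => ball_sub (gv em) k h u ((hk h hh).2 u hu)⟩

theorem isOBdd {em : Cond → B} (hem : DenseEmb em) (h : Ult B) :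
    IsOBdd (E h) (wM h) (Mdl.mk h (grN (gv em))) (Mdl.mk h (mulN B))
      (Mdl.mk h (nm (0 : ℕ → ℤ))) (Mdl.mk h (topN (gv em))) := by
  intro U hU
  obtain ⟨U, rfl⟩ := U.exists_rep
  refine imp_of_fo hem (Q := fun h => IsSeqOf (E h) (wM h) (IsNbhd (E h)
      (Mdl.mk h (grN (gv em))) (Mdl.mk h (nm (0 : ℕ → ℤ))) (Mdl.mk h (topN (gv em))))
      (Mdl.mk h U))
    (R := fun h => ∃ F, IsSeqOf (E h) (wM h) (IsFinSub (E h) (wM h) (Mdl.mk h (grN (gv em)))) F ∧
      ∀ g, E h g (Mdl.mk h (grN (gv em))) → ∃ n u f, E h n (wM h) ∧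
        Has (E h) (Mdl.mk h U) [n, u] ∧ Has (E h) F [n, f] ∧
          InProd (E h) (Mdl.mk h (mulN B)) f u g)
    ?_ ?_ ?_ h hU
  · exact BPred.clop (P := fun h (_ : PUnit.{1}) => IsSeqOf (E h) (wM h) (IsNbhd (E h)
      (Mdl.mk h (grN (gv em))) (Mdl.mk h (nm (0 : ℕ → ℤ))) (Mdl.mk h (topN (gv em))))
      (Mdl.mk h U)) (by (repeat' first | exact BMap.id | apply BMap.fst | apply BMap.snd | exact BTerm.const _ | apply bterm_opair | apply BTerm.of | apply BPred.mem | apply BPred.eq | apply bp_has2 | apply bp_has3 | apply bp_has4 | apply bp_isTuple3 | apply bp_eq_pr | apply bp_isPair | apply bp_isUPair | apply bp_isFun | apply bp_injects | apply bp_leN | apply bp_sub | apply bp_isFin | apply bp_isTop | apply bp_isGrp | apply bp_isAbel | apply bp_isTopGrp | apply bp_isNbhd | apply bp_isFinSub | apply bp_inProd | apply bp_isSeqNb | apply bp_isSeqFs | apply bp_isOBdd | apply bp_isRestr | apply bp_isRule | apply bp_iWins | apply bp_isUMet | apply BPred.not |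 apply BPred.and | apply BPred.or | apply BPred.iff | apply BPred.imp | refine BPred.ex ?_ | refine BPred.all ?_ | exact BPred.const _)) PUnit.unit
  · exact BPred.clop (P := fun h (_ : PUnit.{1}) => ∃ F, IsSeqOf (E h) (wM h)
      (IsFinSub (E h) (wM h) (Mdl.mk h (grN (gv em)))) F ∧
      ∀ g, E h g (Mdl.mk h (grN (gv em))) → ∃ n u f, E h n (wM h) ∧
        Has (E h) (Mdl.mk h U) [n, u] ∧ Has (E h) F [n, f] ∧
          InProd (E h) (Mdl.mk h (mulN B)) f u g) (by (repeat' first | exact BMap.id | apply BMap.fst | apply BMap.snd | exact BTerm.const _ | apply bterm_opair | apply BTerm.of | apply BPred.mem | apply BPred.eq | apply bp_has2 | apply bp_has3 | apply bp_has4 | apply bp_isTuple3 | apply bp_eq_pr | apply bp_isPair | apply bp_isUPair | apply bp_isFun | apply bp_injects | apply bp_leN | apply bp_sub | apply bp_isFin | apply bp_isTop | apply bp_isGrp | apply bp_isAbel | apply bp_isTopGrp | apply bp_isNbhd | apply bp_isFinSub | apply bp_inProd | apply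 bp_isSeqNb | apply bp_isSeqFs | apply bp_isOBdd | apply bp_isRestr | apply bp_isRule | apply bp_iWins | apply bp_isUMet | apply BPred.not | apply BPred.and | apply BPred.or | apply BPred.iff | apply BPred.imp | refine BPred.ex ?_ | refine BPred.all ?_ | exact BPred.const _)) PUnit.unit
  intro p hp
  obtain ⟨q, hqp, hq⟩ := sc_cond.all (D := fun n q => ∃ k : ℕ, Fo em q fun h => ∀ u,
      Has (E h) (Mdl.mk h U) [nM h n, u] → Sub (E h) (Mdl.mk h (ballN (gv em) 0 k)) u)
    (fun n p q hqp ⟨k, hk⟩ => ⟨k, hk.mono hem hqp⟩) p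
    (fun n q hq => decide_ball hem U (hp.mono hem hq) n)
  choose k hk using hq
  obtain ⟨q', hq', φ, hφ, hkφ⟩ := exists_promise q k
  choose Fs hFs1 hFs2 using fun n => exists_fs (φ.1 n) (φ.2 n)
  refine ⟨q', hq'.trans hqp, fun h hh => ⟨Mdl.mk h (sqN fun n => fstN B (Fs n)), ?_, ?_⟩⟩
  · refine isSeqOf_sqN (fun n => fstN B (Fs n)) (c := em q')
      (P := fun h => IsFinSub (E h) (wM h) (Mdl.mk h (grN (gv em)))) (by (repeat' first | exact BMap.id | apply BMap.fst | apply BMap.snd | exact BTerm.const _ | apply bterm_opair | apply BTerm.of | apply BPred.mem | apply BPred.eq | apply bp_has2 | apply bp_has3 | apply bp_has4 | apply bp_isTuple3 | apply bp_eq_pr | apply bp_isPair | apply bp_isUPair | apply bp_isFun | apply bp_injects | apply bp_leN | apply bp_sub | apply bp_isFin | apply bp_isTop | apply bp_isGrp | apply bp_isAbel | apply bp_isTopGrp | apply bp_isNbhd | apply bp_isFinSub | apply bp_inProd | apply bp_isSeqNb | apply bp_isSeqFs | apply bp_isOBdd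 | apply bp_isRestr | apply bp_isRule | apply bp_iWins | apply bp_isUMet | apply BPred.not | apply BPred.and | apply BPred.or | apply BPred.iff | apply BPred.imp | refine BPred.ex ?_ | refine BPred.all ?_ | exact BPred.const _)) ?_ h hh
    intro i h hh
    refine ⟨fun z hz => ?_, isFin_fstN _ _⟩
    obtain ⟨x, hx, rfl⟩ := (E_fstN _ _ _).1 hz
    exact E_chk.2 (gv_of (q'.fin x ⟨_, hFs1 i x hx⟩) h hh)
  · refine forall_chk (gv em) (P := fun h g => ∃ n u f, E h n (wM h) ∧
      Has (E h) (Mdl.mk h U) [n, u] ∧ Has (E h) (Mdl.mk h (sqN fun n => fstN B (Fs n))) [n, f] ∧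
          InProd (E h) (Mdl.mk h (mulN B)) f u g) (by (repeat' first | exact BMap.id | apply BMap.fst | apply BMap.snd | exact BTerm.const _ | apply bterm_opair | apply BTerm.of | apply BPred.mem | apply BPred.eq | apply bp_has2 | apply bp_has3 | apply bp_has4 | apply bp_isTuple3 | apply bp_eq_pr | apply bp_isPair | apply bp_isUPair | apply bp_isFun | apply bp_injects | apply bp_leN | apply bp_sub | apply bp_isFin | apply bp_isTop | apply bp_isGrp | apply bp_isAbel | apply bp_isTopGrp | apply bp_isNbhd | apply bp_isFinSub | apply bp_inProd | apply bp_isSeqNb | apply bp_isSeqFs | apply bp_isOBdd | apply bp_isRestr | apply bp_isRule | apply bp_iWins | apply bp_isUMet | apply BPred.not | apply BPred.and | apply BPred.or | apply BPred.iff | apply BPred.imp | refine BPred.ex ?_ | refine BPred.all ?_ | exact BPred.const _)) (clop_V (em q')) ?_ h hh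
    intro h hh x hx
    refine imp_of_fo hem (Q := fun h => h.V (em q') ∧ h.V (gv em x)) (R := fun h =>
      ∃ n u f, E h n (wM h) ∧
      Has (E h) (Mdl.mk h U) [n, u] ∧ Has (E h) (Mdl.mk h (sqN fun n => fstN B (Fs n))) [n, f] ∧
          InProd (E h) (Mdl.mk h (mulN B)) f u (Mdl.mk h (nm x)))
      (Clop.and (clop_V _) (clop_V _)) ?_ ?_ h ⟨hh, hx⟩
    · exact BPred.clop (P := fun h (_ : PUnit.{1}) => ∃ n u f, E h n (wM h) ∧
        Has (E h) (Mdl.mk h U) [n, u] ∧
          Has (E h) (Mdl.mk h (sqN fun n => fstN B (Fs n))) [n, f] ∧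
          InProd (E h) (Mdl.mk h (mulN B)) f u (Mdl.mk h (nm x))) (by (repeat' first | exact BMap.id | apply BMap.fst | apply BMap.snd | exact BTerm.const _ | apply bterm_opair | apply BTerm.of | apply BPred.mem | apply BPred.eq | apply bp_has2 | apply bp_has3 | apply bp_has4 | apply bp_isTuple3 | apply bp_eq_pr | apply bp_isPair | apply bp_isUPair | apply bp_isFun | apply bp_injects | apply bp_leN | apply bp_sub | apply bp_isFin | apply bp_isTop | apply bp_isGrp | apply bp_isAbel | apply bp_isTopGrp | apply bp_isNbhd | apply bp_isFinSub | apply bp_inProd | apply bp_isSeqNb | apply bp_isSeqFs | apply bp_isOBdd | apply bp_isRestr | apply bp_isRule | apply bp_iWins | apply bp_isUMet | apply BPred.not | apply BPred.and | apply BPred.or | apply BPred.iff | apply BPred.imp | refine BPred.ex ?_ | refine BPred.all ?_ | exact BPred.const _)) PUnit.unit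
    intro r hr
    obtain ⟨r1, hr1, hxr⟩ := exists_of_gv hem (hr.imp fun h hh => hh.2)
    obtain ⟨s, hs1, hs2⟩ := compat_of_fo hem (q := r1) (r := q')
      ((hr.imp fun h hh => hh.1).mono hem hr1)
    obtain ⟨n, hn⟩ := (s.keeps φ (hs2.2 hφ) x (hs1.1 hxr)).exists
    refine ⟨s, hs1.trans hr1, fun h hh => ?_⟩
    have hq'h : h.V (em q') := h.mono (hem.mono _ _ hs2) hh
    have hqh : h.V (em q) := h.mono (hem.mono _ _ hq') hq'h
    have hph : h.V (em p) := h.mono (hem.mono _ _ hqp) hqh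
    obtain ⟨⟨Y, hY⟩, -⟩ := hp h hph
    obtain ⟨u, hu, -⟩ := hY.2 _ (E_nM h n)
    set a : ℕ → ℤ := fun i => if i < φ.1 n then x i else 0 with ha
    have haF : a ∈ Fs n := by
      refine hFs2 n a (fun i hi => if_neg (not_lt.2 hi)) fun i hi => ?_
      simp only [ha, if_pos hi]
      exact (natAbs_le_mx hi).trans hn
    have haH : a ∈ s.H := s.fin a ⟨_, fun i hi => if_neg (not_lt.2 hi)⟩
    refine ⟨nM h n, u, Mdl.mk h (fstN B (Fs n)), E_nM h n, hu, (has_sqN _ _ _ _).2 rfl,
      Mdl.mk h (nm a), Mdl.mk h (nm (x - a)), (E_fstN _ _ _).2 ⟨a, haF, rfl⟩, ?_, ?_⟩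
    · refine hk n h hqh u hu _ ((E_ballN _ _ _ _ _).2 ⟨?_, fun i hi => ?_⟩)
      · exact gv_of (s.H.sub_mem (hs1.1 hxr) haH) h hh
      · have : i < φ.1 n := hi.trans_le (hkφ n)
        simp [ha, this]
    · rw [has_mulN, add_sub_cancel]

end Pool.Agent.MP_b00c97_gt.YS
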