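import Pool.Agent.MP_b00c97_gt.YS.Defs

/-! Block YA: extending the group by a point. -/

set_option autoImplicit false

namespace Pool.Agent.MP_b00c97_gt.YS

open Filter

private theorem pt_mx_le {x : ℕ → ℤ} {n c : ℕ} : mx x n ≤ c ↔ ∀ i < n, (x i).natAbs ≤ c := by
  unfold mx
  rw [Finset.sup_le_iff]
  simp

private theorem pt_lt_mx {x : ℕ → ℤ} {n c : ℕ} : c < mx x n ↔ ∃ i < n, c < (x i).natAbs := by
  rw [← not_le, pt_mx_le]
  push Not
  rfl

private theorem pt_mx_congr {x y : ℕ → ℤ} {n : ℕ} (h : ∀ i < n, x i = y i) : mx x n = mx y n := by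
  apply le_antisymm
  · rw [pt_mx_le]
    intro i hi
    rw [h i hi]
    exact (pt_mx_le.mp le_rfl) i hi
  · rw [pt_mx_le]
    intro i hi
    rw [← h i hi]
    exact (pt_mx_le.mp le_rfl) i hi

private theorem pt_mod {g t y : ℤ} (ht : t ≠ 0) (hy : y = -(g / t)) :
    (g + t * y).natAbs < t.natAbs ∧ g.natAbs ≤ t.natAbs * (y.natAbs + 1) := by
  have h1 : g + t * y = g % t := by
    rw [hy, Int.emod_def]; ring
  have h2 : 0 ≤ g % t := Int.emod_nonneg g ht
  have h3 : g % t < |t| := Int.emod_lt_abs g ht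
  have h4 : (g + t * y).natAbs < t.natAbs := by
    rw [h1]
    rw [Int.abs_eq_natAbs] at h3
    omega
  refine ⟨h4, ?_⟩
  have h5 : g = (g + t * y) - t * y := by ring
  calc g.natAbs = ((g + t * y) - t * y).natAbs := by rw [← h5]
    _ ≤ (g + t * y).natAbs + (t * y).natAbs := Int.natAbs_sub_le _ _
    _ ≤ t.natAbs + t.natAbs * y.natAbs := by rw [Int.natAbs_mul]; omega
    _ = t.natAbs * (y.natAbs + 1) := by ring

section
variable {m b : ℕ → ℕ}

private theorem pt_mono (h1 : ∀ j, m j ≤ b j) (h2 : ∀ j, m (j + 1) = b j + 1) : StrictMono m :=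
  strictMono_nat_of_lt_succ fun j => by rw [h2]; have := h1 j; omega

private theorem pt_bmono (h1 : ∀ j, m j ≤ b j) (h2 : ∀ j, m (j + 1) = b j + 1) {i j : ℕ}
    (h : i ≤ j) : b i ≤ b j := by
  have := (pt_mono h1 h2).monotone (Nat.succ_le_succ h)
  have e1 := h2 i
  have e2 := h2 j
  simp only [Nat.succ_eq_add_one] at this
  omega

private theorem pt_ext (h0 : 1 ≤ m 0) (h1 : ∀ j, m j ≤ b j) (h2 : ∀ j, m (j + 1) = b j + 1)
    (x₀ : ℕ → ℤ) (N : ℕ) (hx : ∀ j, m j ≤ N → b j < mx x₀ (m j)) (g : ℕ → ℤ) (t : ℤ)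
    (ht : t ≠ 0) (φ : (ℕ → ℕ) × (ℕ → ℕ)) (hφ : IsProm φ) (n₀ : ℕ) :
    ∃ (x₁ : ℕ → ℤ) (N' : ℕ), N < N' ∧ (∀ i < N, x₁ i = x₀ i) ∧ (∀ j, b j < mx x₁ (m j)) ∧
      ∃ n, n₀ ≤ n ∧ φ.1 n ≤ N' ∧ mx (g + t • x₁) (φ.1 n) ≤ φ.2 n := by
  classical
  have hm := pt_mono h1 h2
  obtain ⟨hmono, hβ⟩ := hφ
  set y : ℕ → ℤ := fun i => if i < N then x₀ i else -(g i / t) with hy
  have hyN : ∀ i, i < N → y i = x₀ i := fun i hi => by simp [hy, hi]
  have hyN' : ∀ i, ¬ i < N → y i = -(g i / t) := fun i hi => by simp [hy, hi]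
  let J : ℕ → Prop := fun i => N ≤ i ∧ ∃ j, m j = i + 1 ∧ mx y (m j) ≤ b j
  set x₁ : ℕ → ℤ := fun i => if h : J i then ((b h.2.choose : ℤ) + 1) else y i with hx₁
  have hjump : ∀ j, N < m j → mx y (m j) ≤ b j → x₁ (m j - 1) = (b j : ℤ) + 1 := by
    intro j hj hj'
    have hJ : J (m j - 1) := ⟨by omega, j, by omega, hj'⟩
    have e : x₁ (m j - 1) = (b hJ.2.choose : ℤ) + 1 := by simp only [hx₁]; rw [dif_pos hJ]
    have e2 : hJ.2.choose = j := by
      apply hm.injective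
      rw [hJ.2.choose_spec.1]; omega
    rw [e, e2]
  have hnot : ∀ i, ¬ J i → x₁ i = y i := fun i hi => by simp only [hx₁]; rw [dif_neg hi]
  have hlow : ∀ i < N, x₁ i = x₀ i := by
    intro i hi
    rw [hnot i (fun h => by have := h.1; omega), hyN i hi]
  have hb : ∀ j, b j < mx x₁ (m j) := by
    intro j
    by_cases hjN : m j ≤ N
    · rw [pt_mx_congr (y := x₀) (fun i hi => hlow i (by omega))]
      exact hx j hjN
    · have hm1 : 1 ≤ m j := h0.trans (hm.monotone (Nat.zero_le j))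
      by_cases hc : mx y (m j) ≤ b j
      · rw [pt_lt_mx]
        refine ⟨m j - 1, by omega, ?_⟩
        rw [hjump j (by omega) hc]
        omega
      · rw [not_le, pt_lt_mx] at hc
        obtain ⟨i, hi, hi'⟩ := hc
        rw [pt_lt_mx]
        refine ⟨i, hi, ?_⟩
        rw [hnot i ?_]
        · exact hi'
        · rintro ⟨_, j', hj', hj''⟩
          have e1 : (y i).natAbs ≤ b j' := (pt_mx_le.mp hj'') i (by omega)
          have e2 : j' ≤ j := by
            by_contra hlt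
            have := hm (not_le.mp hlt)
            omega
          have e3 := pt_bmono h1 h2 e2
          omega
  -- choice of `n`
  obtain ⟨C, hC⟩ : ∃ C, C = mx (g + t • x₀) N := ⟨_, rfl⟩
  set n₁ : ℕ := n₀ + C + 2 * t.natAbs with hn₁
  have hge : ∀ n, n ≤ φ.1 n := fun n => hmono.id_le n
  have hmge : ∀ n, n ≤ m n := fun n => hm.id_le n
  obtain ⟨j, hj⟩ : ∃ j, φ.1 n₁ < m (j + 1) := ⟨φ.1 n₁, (hmge (φ.1 n₁ + 1))⟩
  set n := Nat.findGreatest (fun n => φ.1 n < m (j + 1)) (m (j + 1)) with hn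
  have hn1 : n₁ ≤ n := Nat.le_findGreatest ((hge n₁).trans hj.le) hj
  have hn2 : φ.1 n < m (j + 1) :=
    Nat.findGreatest_spec (P := fun n => φ.1 n < m (j + 1)) ((hge n₁).trans hj.le) hj
  have hn3 : m (j + 1) ≤ φ.1 (n + 1) := by
    by_contra hlt
    rw [not_le] at hlt
    have : n + 1 ≤ n := Nat.le_findGreatest ((hge (n + 1)).trans hlt.le) hlt
    omega
  refine ⟨x₁, max (N + 1) (φ.1 n), by omega, hlow, hb, n, by omega, le_max_right _ _, ?_⟩
  rw [pt_mx_le]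
  intro i hi
  refine le_trans ?_ (hβ n)
  have hn4 : n ≤ n * (φ.1 (n + 1) + 1) := Nat.le_mul_of_pos_right _ (Nat.succ_pos _)
  show (g i + t * x₁ i).natAbs ≤ _
  by_cases hiN : i < N
  · rw [hlow i hiN]
    have : (g i + t * x₀ i).natAbs ≤ C := by
      rw [hC]
      exact (pt_mx_le (x := g + t • x₀).mp le_rfl) i hiN
    omega
  · by_cases hJ : J i
    · obtain ⟨_, j', hj', hj''⟩ := hJ
      have e0 : x₁ i = (b j' : ℤ) + 1 := by
        have := hjump j' (by omega) hj''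
        rwa [show m j' - 1 = i by omega] at this
      have e1 : (y i).natAbs ≤ b j' := (pt_mx_le.mp hj'') i (by omega)
      have e2 := (pt_mod ht (hyN' i hiN)).2
      have e3 : (g i).natAbs ≤ t.natAbs * (b j' + 1) :=
        e2.trans (Nat.mul_le_mul_left _ (by omega))
      have e4 : (t * x₁ i).natAbs = t.natAbs * (b j' + 1) := by
        rw [Int.natAbs_mul, e0]
        congr 1
      have e5 : j' ≤ j := by
        by_contra hlt
        rw [not_le] at hlt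
        have := hm.monotone (Nat.succ_le_of_lt hlt)
        simp only [Nat.succ_eq_add_one] at this
        omega
      have e6 : b j' + 1 ≤ φ.1 (n + 1) := by
        rw [← h2 j']
        exact (hm.monotone (Nat.succ_le_succ e5)).trans hn3
      calc (g i + t * x₁ i).natAbs ≤ (g i).natAbs + (t * x₁ i).natAbs := Int.natAbs_add_le _ _
        _ ≤ t.natAbs * (b j' + 1) + t.natAbs * (b j' + 1) := by rw [e4]; omega
        _ = (2 * t.natAbs) * (b j' + 1) := by ring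
        _ ≤ n * (φ.1 (n + 1) + 1) := Nat.mul_le_mul (by omega) (by omega)
    · rw [hnot i hJ]
      have := (pt_mod ht (hyN' i hiN)).1
      omega

end

/-! ### Block YA (file YS/Point.lean): extending the group by a point -/

theorem exists_point (p : Cond) (m b : ℕ → ℕ) (h0 : 1 ≤ m 0) (h1 : ∀ j, m j ≤ b j)
    (h2 : ∀ j, m (j + 1) = b j + 1) :
    ∃ q, q ≤ p ∧ ∃ x ∈ q.H, ∀ j, b j < mx x (m j) := by
  classical
  have hm := pt_mono h1 h2
  -- the requirements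
  set φ₀ : (ℕ → ℕ) × (ℕ → ℕ) := (fun n => n, fun n => n * (n + 2)) with hφ₀
  have hφ₀' : IsProm φ₀ := ⟨strictMono_id, fun n => le_rfl⟩
  set S : Set ((ℕ → ℤ) × ℤ × ((ℕ → ℕ) × (ℕ → ℕ)) × ℕ) :=
    (p.H : Set (ℕ → ℤ)) ×ˢ ({t : ℤ | t ≠ 0} ×ˢ ((insert φ₀ p.Φ) ×ˢ (Set.univ : Set ℕ))) with hS
  have hSc : S.Countable :=
    p.H_ctbl.prod ((Set.to_countable _).prod ((p.Φ_ctbl.insert φ₀).prod (Set.to_countable _)))
  have hSn : S.Nonempty :=
    ⟨(0, 1, φ₀, 0), p.H.zero_mem, one_ne_zero, Set.mem_insert _ _, Set.mem_univ _⟩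
  obtain ⟨e, he⟩ := hSc.exists_eq_range hSn
  have heS : ∀ k, e k ∈ S := fun k => by rw [he]; exact Set.mem_range_self k
  have hprom : ∀ φ ∈ insert φ₀ p.Φ, IsProm φ := by
    intro φ hφ
    rcases hφ with rfl | hφ
    · exact hφ₀'
    · exact p.prom φ hφ
  -- the states
  let St := {s : (ℕ → ℤ) × ℕ // ∀ j, m j ≤ s.2 → b j < mx s.1 (m j)}
  have hnext : ∀ (k : ℕ) (s : St), ∃ s' : St, s.1.2 < s'.1.2 ∧ (∀ i < s.1.2, s'.1.1 i = s.1.1 i) ∧
      ∃ n, (e k).2.2.2 ≤ n ∧ (e k).2.2.1.1 n ≤ s'.1.2 ∧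
        mx ((e k).1 + (e k).2.1 • s'.1.1) ((e k).2.2.1.1 n) ≤ (e k).2.2.1.2 n := by
    intro k s
    obtain ⟨hg, ht, hφ, _⟩ := heS k
    obtain ⟨x₁, N', e1, e2, e3, e4⟩ := pt_ext h0 h1 h2 s.1.1 s.1.2 s.2 (e k).1 (e k).2.1 ht
      (e k).2.2.1 (hprom _ hφ) (e k).2.2.2
    exact ⟨⟨(x₁, N'), fun j _ => e3 j⟩, e1, e2, e4⟩
  choose nx hnx1 hnx2 hnx3 using hnext
  let s₀ : St := ⟨(fun _ => 0, 0), fun j hj => by
    have : 1 ≤ m j := h0.trans (hm.monotone (Nat.zero_le j))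
    simp only at hj
    omega⟩
  let s : ℕ → St := fun k => Nat.rec s₀ (fun k s => nx k s) k
  have hs : ∀ k, s (k + 1) = nx k (s k) := fun k => rfl
  have hN : ∀ k, (s k).1.2 < (s (k + 1)).1.2 := fun k => by rw [hs]; exact hnx1 k (s k)
  have hNm : StrictMono fun k => (s k).1.2 := strictMono_nat_of_lt_succ hN
  have hNge : ∀ k, k ≤ (s k).1.2 := fun k => hNm.id_le k
  have hagree : ∀ k l, k ≤ l → ∀ i < (s k).1.2, (s l).1.1 i = (s k).1.1 i := by
    intro k l hkl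
    induction l, hkl using Nat.le_induction with
    | base => intro i _; rfl
    | succ l hkl ih =>
      intro i hi
      rw [hs, hnx2 l (s l) i (hi.trans_le (hNm.monotone hkl)), ih i hi]
  set x : ℕ → ℤ := fun i => (s (i + 1)).1.1 i with hxdef
  have hxs : ∀ k, ∀ i < (s k).1.2, x i = (s k).1.1 i := by
    intro k i hi
    rcases le_total (i + 1) k with h | h
    · exact (hagree (i + 1) k h i (Nat.lt_of_succ_le (hNge (i + 1)))).symm
    · exact hagree k (i + 1) h i hi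
  have hbx : ∀ j, b j < mx x (m j) := by
    intro j
    have e1 := (s (m j)).2 j (hNge (m j))
    rwa [pt_mx_congr (y := (s (m j)).1.1) (fun i hi => hxs (m j) i (hi.trans_le (hNge (m j))))]
  have hkeep : ∀ φ ∈ p.Φ, ∀ g ∈ p.H, ∀ t : ℤ, t ≠ 0 → Keeps φ (g + t • x) := by
    intro φ hφ g hg t ht
    unfold Keeps
    rw [Filter.frequently_atTop]
    intro a
    have hmem : (g, t, φ, a) ∈ S := ⟨hg, ht, Set.mem_insert_of_mem _ hφ, Set.mem_univ _⟩
    rw [he] at hmem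
    obtain ⟨k, hk⟩ := hmem
    obtain ⟨n, n1, n2, n3⟩ := hnx3 k (s k)
    rw [hk] at n1 n2 n3
    refine ⟨n, n1, ?_⟩
    rw [pt_mx_congr (y := g + t • (nx k (s k)).1.1)]
    · exact n3
    · intro i hi
      show g i + t * x i = g i + t * (nx k (s k)).1.1 i
      rw [hxs (k + 1) i (hi.trans_le n2), hs]
  refine ⟨{ H := p.H ⊔ AddSubgroup.zmultiples x, Φ := p.Φ, H_ctbl := ?_, Φ_ctbl := p.Φ_ctbl,
            fin := fun z hz => AddSubgroup.mem_sup_left (p.fin z hz), prom := p.prom,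
            keeps := ?_ }, ?_, x, ?_, hbx⟩
  · refine Set.Countable.mono ?_ ((p.H_ctbl.prod (Set.to_countable (Set.univ : Set ℤ))).image
      (fun q : (ℕ → ℤ) × ℤ => q.1 + q.2 • x))
    intro z hz
    obtain ⟨g, hg, w, hw, rfl⟩ := AddSubgroup.mem_sup.mp hz
    obtain ⟨t, rfl⟩ := AddSubgroup.mem_zmultiples_iff.mp hw
    exact ⟨(g, t), ⟨hg, Set.mem_univ _⟩, rfl⟩
  · intro φ hφ z hz
    obtain ⟨g, hg, w, hw, rfl⟩ := AddSubgroup.mem_sup.mp hz
    obtain ⟨t, rfl⟩ := AddSubgroup.mem_zmultiples_iff.mp hw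
    by_cases ht : t = 0
    · subst ht
      rw [zero_smul, add_zero]
      exact p.keeps φ hφ g hg
    · exact hkeep φ hφ g hg t ht
  · rw [Cond.le_iff]
    exact ⟨le_sup_left, subset_rfl⟩
  · exact AddSubgroup.mem_sup_right (AddSubgroup.mem_zmultiples x)

end Pool.Agent.MP_b00c97_gt.YS
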