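import Pool.Agent.MP_b00c97_gt.YS.Defs

/-! Block YB: the easy properties of the poset. -/

set_option autoImplicit false

namespace Pool.Agent.MP_b00c97_gt.YS

open Filter MeasureTheory Pool.Agent.BVM Pool.Agent.BVM.BName Pool.Agent.SetModel
  Pool.Agent.MP63050e Pool.Agent.MP7e7dde Pool.Agent.MP9096b7 Pool.Agent.MP_b00c97_gt.Mod
  Pool.Agent.MP_b00c97_gt.FO

theorem nonempty_cond : Nonempty Cond := by
  refine ⟨{
    H := {
      carrier := {x | ∃ N, ∀ i, N ≤ i → x i = 0}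
      zero_mem' := ⟨0, fun _ _ => rfl⟩
      add_mem' := ?_
      neg_mem' := ?_ }
    Φ := ∅
    H_ctbl := ?_
    Φ_ctbl := Set.countable_empty
    fin := fun x hx => hx
    prom := fun φ hφ => absurd hφ (Set.notMem_empty φ)
    keeps := fun φ hφ => absurd hφ (Set.notMem_empty φ) }⟩
  · rintro x y ⟨N, hN⟩ ⟨N', hN'⟩
    refine ⟨max N N', fun i hi => ?_⟩
    show x i + y i = 0
    rw [hN i (le_trans (le_max_left _ _) hi), hN' i (le_trans (le_max_right _ _) hi), add_zero]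
  · rintro x ⟨N, hN⟩
    refine ⟨N, fun i hi => ?_⟩
    show -(x i) = 0
    rw [hN i hi, neg_zero]
  · refine (Set.countable_range (fun f : ℕ →₀ ℤ => (f : ℕ → ℤ))).mono ?_
    rintro x ⟨N, hN⟩
    refine ⟨Finsupp.onFinset (Finset.range N) x fun i hi => ?_, rfl⟩
    rw [Finset.mem_range]
    by_contra hc
    exact hi (hN i (not_lt.1 hc))

theorem sc_cond_aux {p : ℕ → Cond} (hp : ∀ n, p (n + 1) ≤ p n) {m n : ℕ} (h : m ≤ n) :
    p n ≤ p m := by
  induction n, h using Nat.le_induction with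
  | base => exact le_rfl
  | succ k _ ih => exact (hp k).trans ih

theorem sc_cond : SC Cond := by
  intro p hp
  have hmH : ∀ {m n : ℕ}, m ≤ n → ∀ x, x ∈ (p m).H → x ∈ (p n).H := fun h x hx =>
    (sc_cond_aux hp h).1 hx
  have hmP : ∀ {m n : ℕ}, m ≤ n → ∀ φ, φ ∈ (p m).Φ → φ ∈ (p n).Φ := fun h x hx =>
    (sc_cond_aux hp h).2 hx
  refine ⟨{
    H := {
      carrier := {x | ∃ n, x ∈ (p n).H}
      zero_mem' := ⟨0, (p 0).H.zero_mem⟩
      add_mem' := ?_
      neg_mem' := ?_ }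
    Φ := {φ | ∃ n, φ ∈ (p n).Φ}
    H_ctbl := ?_
    Φ_ctbl := ?_
    fin := fun x hx => ⟨0, (p 0).fin x hx⟩
    prom := ?_
    keeps := ?_ }, fun n => ⟨fun x hx => ⟨n, hx⟩, fun φ hφ => ⟨n, hφ⟩⟩⟩
  · rintro x y ⟨n, hn⟩ ⟨m, hm⟩
    exact ⟨max n m, (p (max n m)).H.add_mem (hmH (le_max_left _ _) x hn)
      (hmH (le_max_right _ _) y hm)⟩
  · rintro x ⟨n, hn⟩
    exact ⟨n, (p n).H.neg_mem hn⟩
  · have : {x | ∃ n, x ∈ (p n).H} = ⋃ n, ((p n).H : Set (ℕ → ℤ)) := by
      ext x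
      simp
    show ({x | ∃ n, x ∈ (p n).H} : Set (ℕ → ℤ)).Countable
    rw [this]
    exact Set.countable_iUnion fun n => (p n).H_ctbl
  · have : {φ | ∃ n, φ ∈ (p n).Φ} = ⋃ n, (p n).Φ := by
      ext x
      simp
    rw [this]
    exact Set.countable_iUnion fun n => (p n).Φ_ctbl
  · rintro φ ⟨n, hn⟩
    exact (p n).prom φ hn
  · rintro φ ⟨n, hn⟩ x ⟨m, hm⟩
    exact (p (max n m)).keeps φ (hmP (le_max_left _ _) φ hn) x (hmH (le_max_right _ _) x hm)

theorem exists_promise (p : Cond) (k : ℕ → ℕ) :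
    ∃ q, q ≤ p ∧ ∃ φ ∈ q.Φ, ∀ n, k n ≤ φ.1 n := by
  obtain ⟨g, hg⟩ := p.H_ctbl.exists_eq_range ⟨0, p.H.zero_mem⟩
  let h : ℕ → ℕ := fun n => n + ∑ i ∈ Finset.range (n + 1), k i
  let β : ℕ → ℕ := fun n => max (n * (h (n + 1) + 1))
    ((Finset.range (n + 1)).sup fun i => mx (g i) (h n))
  have hh : StrictMono h := by
    refine strictMono_nat_of_lt_succ fun n => ?_
    show n + ∑ i ∈ Finset.range (n + 1), k i < n + 1 + ∑ i ∈ Finset.range (n + 1 + 1), k i
    rw [Finset.sum_range_succ _ (n + 1)]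
    omega
  have hk : ∀ n, k n ≤ h n := by
    intro n
    show k n ≤ n + ∑ i ∈ Finset.range (n + 1), k i
    rw [Finset.sum_range_succ]
    omega
  refine ⟨{
    H := p.H
    Φ := insert (h, β) p.Φ
    H_ctbl := p.H_ctbl
    Φ_ctbl := p.Φ_ctbl.insert _
    fin := p.fin
    prom := ?_
    keeps := ?_ }, ⟨le_rfl, Set.subset_insert _ _⟩, (h, β), Set.mem_insert _ _, hk⟩
  · intro φ hφ
    rcases hφ with rfl | hφ
    · exact ⟨hh, fun n => le_max_left _ _⟩
    · exact p.prom φ hφ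
  · intro φ hφ x hx
    rcases hφ with rfl | hφ
    · have hx' : x ∈ Set.range g := by
        rw [← hg]
        exact hx
      obtain ⟨i, rfl⟩ := hx'
      refine Eventually.frequently ?_
      filter_upwards [eventually_ge_atTop i] with n hn
      refine le_trans ?_ (le_max_right _ _)
      exact Finset.le_sup (f := fun i => mx (g i) (h n)) (Finset.mem_range.2 (by omega))
    · exact p.keeps φ hφ x hx

/-- the step of the strategy -/
theorem mv_append (l : List (Finset (ℕ → ℤ))) (F : Finset (ℕ → ℤ)) :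
    mv (l ++ [F]) = max (mv l) (F.sup fun x => mx x (mv l)) + 1 := by
  unfold mv
  rw [List.foldl_append]
  rfl

theorem one_le_mv (l : List (Finset (ℕ → ℤ))) : 1 ≤ mv l := by
  rcases List.eq_nil_or_concat l with rfl | ⟨l', F, rfl⟩
  · exact le_rfl
  · rw [List.concat_eq_append, mv_append]
    omega

end Pool.Agent.MP_b00c97_gt.YS
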