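import Pool.Agent.MP_b00c97_gt.YS.Point
import Pool.Agent.MP_b00c97_gt.YS.Obd

/-! Block YG: the winning strategy of player I. -/

set_option autoImplicit false
set_option linter.unusedVariables false
set_option linter.unusedSectionVars false
set_option linter.unreachableTactic false
set_option linter.unusedTactic false

namespace Pool.Agent.MP_b00c97_gt.YS

open Filter MeasureTheory Pool.Agent.BVM Pool.Agent.BVM.BName Pool.Agent.SetModel
  Pool.Agent.MP63050e Pool.Agent.MP7e7dde Pool.Agent.MP9096b7 Pool.Agent.MP_b00c97_gt.Mod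
  Pool.Agent.MP_b00c97_gt.FO Pool.Agent.MP_b00c97_gt.YS

variable {B : Type} [CompleteBooleanAlgebra B]

theorem has_sigN (v : (ℕ → ℤ) → B) (l : List (Finset (ℕ → ℤ))) (h : Ult B) (z : Mdl h) :
    Has (E h) (Mdl.mk h (sigN v)) [Mdl.mk h (seqF B l), z] ↔
      z = Mdl.mk h (ballN v 0 (mv l)) := by
  constructor
  · intro H
    obtain ⟨z, rfl⟩ := z.exists_rep
    rw [has_iff (by simp)] at H
    have H' : E h (Mdl.mk h (opair (seqF B l) z)) (Mdl.mk h (sigN v)) := H
    refine forall_mem' (P := fun h p => ∀ x, p = pr h (Mdl.mk h (seqF B l)) x →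
      x = Mdl.mk h (ballN v 0 (mv l))) _ _ ?_ ?_ h _ H' _ rfl
    · (repeat' first | exact BMap.id | apply BMap.fst | apply BMap.snd | exact BTerm.const _ | apply bterm_opair | apply BTerm.of | apply BPred.mem | apply BPred.eq | apply bp_has2 | apply bp_has3 | apply bp_has4 | apply bp_isTuple3 | apply bp_eq_pr | apply bp_isPair | apply bp_isUPair | apply bp_isFun | apply bp_injects | apply bp_leN | apply bp_sub | apply bp_isFin | apply bp_isTop | apply bp_isGrp | apply bp_isAbel | apply bp_isTopGrp | apply bp_isNbhd | apply bp_isFinSub | apply bp_inProd | apply bp_isSeqNb | apply bp_isSeqFs | apply bp_isOBdd | apply bp_isRestr | apply bp_isRule | apply bp_iWins | apply bp_isUMet | apply BPred.not | apply BPred.and | apply BPred.or | apply BPred.iff | apply BPred.imp | refine BPred.ex ?_ | refine BPred.all ?_ | exact BPred.const _)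
    · intro h l' _ x hx
      obtain ⟨h1, h2⟩ := pr_inj.1 (show pr h (Mdl.mk h (seqF B l')) (Mdl.mk h (ballN v 0 (mv l'))) =
        pr h (Mdl.mk h (seqF B l)) x from hx)
      rw [seqF_inj] at h1
      subst h1
      exact h2.symm
  · rintro rfl
    rw [has_iff (by simp)]
    exact E_of_coe (e := fun l => opair (seqF B l) (ballN v 0 (mv l))) (i := l) h.top'

variable {em : Cond → B} (hem : DenseEmb em)

include hem

theorem isRule (h : Ult B) :
    IsRule (E h) (wM h) (Mdl.mk h (grN (gv em))) (Mdl.mk h (nm (0 : ℕ → ℤ)))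
      (Mdl.mk h (topN (gv em))) (Mdl.mk h (sigN (gv em))) := by
  intro n s hn hs
  have h1 := seq_mem hem h n s hn hs
  refine forall_mem' (P := fun h s => ∃ U, IsNbhd (E h) (Mdl.mk h (grN (gv em)))
    (Mdl.mk h (nm (0 : ℕ → ℤ))) (Mdl.mk h (topN (gv em))) U ∧
      ∀ U', Has (E h) (Mdl.mk h (sigN (gv em))) [s, U'] ↔ U' = U) _ _ ?_ ?_ h s h1
  · (repeat' first | exact BMap.id | apply BMap.fst | apply BMap.snd | exact BTerm.const _ | apply bterm_opair | apply BTerm.of | apply BPred.mem | apply BPred.eq | apply bp_has2 | apply bp_has3 | apply bp_has4 | apply bp_isTuple3 | apply bp_eq_pr | apply bp_isPair | apply bp_isUPair | apply bp_isFun | apply bp_injects | apply bp_leN | apply bp_sub | apply bp_isFin | apply bp_isTop | apply bp_isGrp | apply bp_isAbel | apply bp_isTopGrp | apply bp_isNbhd | apply bp_isFinSub | apply bp_inProd | apply bp_isSeqNb | apply bp_isSeqFs | apply bp_isOBdd | apply bp_isRestr | apply bp_isRule | apply bp_iWins | apply bp_isUMet | apply BPred.not | apply BPred.and | apply BPred.or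 | apply BPred.iff | apply BPred.imp | refine BPred.ex ?_ | refine BPred.all ?_ | exact BPred.const _)
  · intro h l _
    exact ⟨Mdl.mk h (ballN (gv em) 0 (mv l)), isNbhd_ballN (isGV hem) (mv l) h,
      fun U' => has_sigN (gv em) l h U'⟩

omit hem in
theorem not_has_mul (v : (ℕ → ℤ) → B) (x y : ℕ → ℤ) (k b : ℕ) (h1 : mx y k ≤ b) (h2 : b < mx x k)
    (h : Ult B) (u : Mdl h) (hu : E h u (Mdl.mk h (ballN v 0 k))) :
    ¬ Has (E h) (Mdl.mk h (mulN B)) [Mdl.mk h (nm y), u, Mdl.mk h (nm x)] := by
  refine forall_chk _ (P := fun h u => ¬ Has (E h) (Mdl.mk h (mulN B))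
    [Mdl.mk h (nm y), u, Mdl.mk h (nm x)]) ?_ clop_true ?_ h trivial u hu
  · (repeat' first | exact BMap.id | apply BMap.fst | apply BMap.snd | exact BTerm.const _ | apply bterm_opair | apply BTerm.of | apply BPred.mem | apply BPred.eq | apply bp_has2 | apply bp_has3 | apply bp_has4 | apply bp_isTuple3 | apply bp_eq_pr | apply bp_isPair | apply bp_isUPair | apply bp_isFun | apply bp_injects | apply bp_leN | apply bp_sub | apply bp_isFin | apply bp_isTop | apply bp_isGrp | apply bp_isAbel | apply bp_isTopGrp | apply bp_isNbhd | apply bp_isFinSub | apply bp_inProd | apply bp_isSeqNb | apply bp_isSeqFs | apply bp_isOBdd | apply bp_isRestr | apply bp_isRule | apply bp_iWins | apply bp_isUMet | apply BPred.not | apply BPred.and | apply BPred.or | apply BPred.iff | apply BPred.imp | refine BPred.ex ?_ | refine BPred.all ?_ | exact BPred.const _)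
  · intro h _ z hz H
    rw [has_mulN, nm_inj] at H
    rw [h.inf', V_tv] at hz
    have h3 : mx x k = mx y k := by
      unfold mx
      apply Finset.sup_congr rfl
      intro i hi
      have := hz.2 i (Finset.mem_range.1 hi)
      rw [H, Pi.add_apply, this]
      simp
    omega

theorem iWins (h : Ult B) :
    IWins (E h) (wM h) (Mdl.mk h (grN (gv em))) (Mdl.mk h (mulN B))
      (Mdl.mk h (nm (0 : ℕ → ℤ))) (Mdl.mk h (topN (gv em))) := by
  refine ⟨Mdl.mk h (sigN (gv em)), isRule hem h, ?_⟩
  intro A
  obtain ⟨A, rfl⟩ := A.exists_rep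
  refine imp_of_fo hem (Q := fun h => IsSeqOf (E h) (wM h)
      (IsFinSub (E h) (wM h) (Mdl.mk h (grN (gv em)))) (Mdl.mk h A))
    (R := fun h => ∃ g, E h g (Mdl.mk h (grN (gv em))) ∧ ∀ n s U f, E h n (wM h) →
      IsRestr (E h) s (Mdl.mk h A) n → Has (E h) (Mdl.mk h (sigN (gv em))) [s, U] →
      Has (E h) (Mdl.mk h A) [n, f] → ¬ InProd (E h) (Mdl.mk h (mulN B)) f U g) ?_ ?_ ?_ h
  · refine BPred.clop (P := fun h (_ : PUnit.{1}) => IsSeqOf (E h) (wM h)
      (IsFinSub (E h) (wM h) (Mdl.mk h (grN (gv em)))) (Mdl.mk h A)) ?_ PUnit.unit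
    (repeat' first | exact BMap.id | apply BMap.fst | apply BMap.snd | exact BTerm.const _ | apply bterm_opair | apply BTerm.of | apply BPred.mem | apply BPred.eq | apply bp_has2 | apply bp_has3 | apply bp_has4 | apply bp_isTuple3 | apply bp_eq_pr | apply bp_isPair | apply bp_isUPair | apply bp_isFun | apply bp_injects | apply bp_leN | apply bp_sub | apply bp_isFin | apply bp_isTop | apply bp_isGrp | apply bp_isAbel | apply bp_isTopGrp | apply bp_isNbhd | apply bp_isFinSub | apply bp_inProd | apply bp_isSeqNb | apply bp_isSeqFs | apply bp_isOBdd | apply bp_isRestr | apply bp_isRule | apply bp_iWins | apply bp_isUMet | apply BPred.not | apply BPred.and | apply BPred.or | apply BPred.iff | apply BPred.imp | refine BPred.ex ?_ | refine BPred.all ?_ | exact BPred.const _)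
  · refine BPred.clop (P := fun h (_ : PUnit.{1}) => ∃ g, E h g (Mdl.mk h (grN (gv em))) ∧
      ∀ n s U f, E h n (wM h) →
      IsRestr (E h) s (Mdl.mk h A) n → Has (E h) (Mdl.mk h (sigN (gv em))) [s, U] →
      Has (E h) (Mdl.mk h A) [n, f] → ¬ InProd (E h) (Mdl.mk h (mulN B)) f U g) ?_ PUnit.unit
    (repeat' first | exact BMap.id | apply BMap.fst | apply BMap.snd | exact BTerm.const _ | apply bterm_opair | apply BTerm.of | apply BPred.mem | apply BPred.eq | apply bp_has2 | apply bp_has3 | apply bp_has4 | apply bp_isTuple3 | apply bp_eq_pr | apply bp_isPair | apply bp_isUPair | apply bp_isFun | apply bp_injects | apply bp_leN | apply bp_sub | apply bp_isFin | apply bp_isTop | apply bp_isGrp | apply bp_isAbel | apply bp_isTopGrp | apply bp_isNbhd | apply bp_isFinSub | apply bp_inProd | apply bp_isSeqNb | apply bp_isSeqFs | apply bp_isOBdd | apply bp_isRestr | apply bp_isRule | apply bp_iWins | apply bp_isUMet | apply BPred.not | apply BPred.and | apply BPred.or | apply BPred.iff | apply BPred.imp | refine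 BPred.ex ?_ | refine BPred.all ?_ | exact BPred.const _)
  intro p hp
  obtain ⟨q, hqp, F, hF⟩ := decide_seq hem A hp
  let l : ℕ → List (Finset (ℕ → ℤ)) := fun n => (List.range n).map F
  have hlen : ∀ n, (l n).length = n := fun n => by simp [l]
  have hl : ∀ n, l (n + 1) = l n ++ [F n] := fun n => by
    simp [l, List.range_succ]
  let b : ℕ → ℕ := fun n => max (mv (l n)) ((F n).sup fun x => mx x (mv (l n)))
  obtain ⟨q', hq', x, hx, hxb⟩ := exists_point q (fun n => mv (l n)) b (one_le_mv _)
    (fun j => le_max_left _ _) (fun j => by simp only [hl, mv_append]; rfl)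
  refine ⟨q', hq'.trans hqp, ?_⟩
  intro h hh
  refine ⟨Mdl.mk h (nm x), E_chk.2 (gv_of hx h hh), ?_⟩
  intro n s U f hn
  revert s U f
  refine forall_om (P := fun h n => ∀ s U f, IsRestr (E h) s (Mdl.mk h A) n →
      Has (E h) (Mdl.mk h (sigN (gv em))) [s, U] →
      Has (E h) (Mdl.mk h A) [n, f] → ¬ InProd (E h) (Mdl.mk h (mulN B)) f U (Mdl.mk h (nm x)))
    ?_ (clop_V (em q')) ?_ h hh n hn
  · (repeat' first | exact BMap.id | apply BMap.fst | apply BMap.snd | exact BTerm.const _ | apply bterm_opair | apply BTerm.of | apply BPred.mem | apply BPred.eq | apply bp_has2 | apply bp_has3 | apply bp_has4 | apply bp_isTuple3 | apply bp_eq_pr | apply bp_isPair | apply bp_isUPair | apply bp_isFun | apply bp_injects | apply bp_leN | apply bp_sub | apply bp_isFin | apply bp_isTop | apply bp_isGrp | apply bp_isAbel | apply bp_isTopGrp | apply bp_isNbhd | apply bp_isFinSub | apply bp_inProd | apply bp_isSeqNb | apply bp_isSeqFs | apply bp_isOBdd | apply bp_isRestr | apply bp_isRule | apply bp_iWins | apply bp_isUMet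 | apply BPred.not | apply BPred.and | apply BPred.or | apply BPred.iff | apply BPred.imp | refine BPred.ex ?_ | refine BPred.all ?_ | exact BPred.const _)
  · intro h hh n s U f hs hU hf hin
    have hhq : h.V (em q) := h.mono (hem.mono _ _ hq') hh
    have hhp : h.V (em p) := h.mono (hem.mono _ _ hqp) hhq
    obtain ⟨⟨Y, hY⟩, -⟩ := hp h hhp
    have h1 : s = Mdl.mk h (seqF B (l n)) := by
      refine eq_seqF_restr (l n) hY (by rw [hlen]; exact hs) ?_
      intro i hi u hu
      rw [hF i h hhq u hu]
      simp [l]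
    rw [h1, has_sigN] at hU
    have h2 := hF n h hhq f hf
    obtain ⟨a, u, ha, hu, hau⟩ := hin
    rw [h2, E_fstN] at ha
    obtain ⟨y, hy, rfl⟩ := ha
    rw [hU] at hu
    refine not_has_mul (gv em) x y (mv (l n)) (b n) ?_ (hxb n) h u hu hau
    exact (Finset.le_sup (f := fun x => mx x (mv (l n))) hy).trans (le_max_right _ _)

end Pool.Agent.MP_b00c97_gt.YS
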