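import Pool.Agent.MP_b00c97_gt.YS.Grp

/-! Block YD: the topology of the generic group. -/

set_option autoImplicit false
set_option linter.unusedVariables false
set_option linter.unusedSectionVars false
set_option linter.unreachableTactic false
set_option linter.unusedTactic false

namespace Pool.Agent.MP_b00c97_gt.YS

open Filter MeasureTheory Pool.Agent.BVM Pool.Agent.BVM.BName Pool.Agent.SetModel
  Pool.Agent.MP63050e Pool.Agent.MP7e7dde Pool.Agent.MP9096b7 Pool.Agent.MP_b00c97_gt.Mod
  Pool.Agent.MP_b00c97_gt.FO Pool.Agent.MP_b00c97_gt.YS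

variable {B : Type} [CompleteBooleanAlgebra B]

theorem ball_sub_gr (v : (ℕ → ℤ) → B) (a : ℕ → ℤ) (n : ℕ) (h : Ult B) :
    Sub (E h) (Mdl.mk h (ballN v a n)) (Mdl.mk h (grN v)) := by
  intro z hz
  refine forall_chk (fun x => v x ⊓ tv B (∀ i < n, x i = a i))
    (P := fun h z => E h z (Mdl.mk h (grN v))) ?_ clop_true ?_ h trivial z hz
  · (repeat' first | exact BMap.id | apply BMap.fst | apply BMap.snd | exact BTerm.const _ | apply bterm_opair | apply BTerm.of | apply BPred.mem | apply BPred.eq | apply bp_has2 | apply bp_has3 | apply bp_has4 | apply bp_isTuple3 | apply bp_eq_pr | apply bp_isPair | apply bp_isUPair | apply bp_isFun | apply bp_injects | apply bp_leN | apply bp_sub | apply bp_isFin | apply bp_isTop | apply bp_isGrp | apply bp_isAbel | apply bp_isTopGrp | apply bp_isNbhd | apply bp_isFinSub | apply bp_inProd | apply bp_isSeqNb | apply bp_isSeqFs | apply bp_isOBdd | apply bp_isRestr | apply bp_isRule | apply bp_iWins | apply bp_isUMet | apply BPred.not | apply BPred.and | apply BPred.or |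 apply BPred.iff | apply BPred.imp | refine BPred.ex ?_ | refine BPred.all ?_ | exact BPred.const _)
  · intro h _ x hx
    rw [h.inf'] at hx
    exact E_chk.2 hx.1

theorem ball_mem_top (v : (ℕ → ℤ) → B) (a : ℕ → ℤ) (n : ℕ) (h : Ult B) :
    E h (Mdl.mk h (ballN v a n)) (Mdl.mk h (topN v)) := by
  rw [E_topN]
  refine ⟨ball_sub_gr v a n h, ?_⟩
  refine forall_chk (fun x => v x ⊓ tv B (∀ i < n, x i = a i))
    (P := fun h x => ∃ m, E h m (wM h) ∧
    ∀ y k, E h y (Mdl.mk h (grN v)) → Has (E h) (Mdl.mk h (deltaN B)) [x, y, k] →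
      LeN (E h) m k → E h y (Mdl.mk h (ballN v a n))) ?_ clop_true ?_ h trivial
  · (repeat' first | exact BMap.id | apply BMap.fst | apply BMap.snd | exact BTerm.const _ | apply bterm_opair | apply BTerm.of | apply BPred.mem | apply BPred.eq | apply bp_has2 | apply bp_has3 | apply bp_has4 | apply bp_isTuple3 | apply bp_eq_pr | apply bp_isPair | apply bp_isUPair | apply bp_isFun | apply bp_injects | apply bp_leN | apply bp_sub | apply bp_isFin | apply bp_isTop | apply bp_isGrp | apply bp_isAbel | apply bp_isTopGrp | apply bp_isNbhd | apply bp_isFinSub | apply bp_inProd | apply bp_isSeqNb | apply bp_isSeqFs | apply bp_isOBdd | apply bp_isRestr | apply bp_isRule | apply bp_iWins | apply bp_isUMet | apply BPred.not | apply BPred.and | apply BPred.or | apply BPred.iff | apply BPred.imp | refine BPred.ex ?_ | refine BPred.all ?_ | exact BPred.const _)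
  · intro h _ x hx
    refine ⟨nM h n, E_nM h n, ?_⟩
    intro y k hy
    revert k
    revert y
    refine forall_chk v (P := fun h y => ∀ k, Has (E h) (Mdl.mk h (deltaN B)) [Mdl.mk h (nm x), y, k] →
      LeN (E h) (nM h n) k → E h y (Mdl.mk h (ballN v a n)))
      (Q := fun h => h.V (v x ⊓ tv B (∀ i < n, x i = a i))) ?_ (clop_V _) ?_ h hx
    · (repeat' first | exact BMap.id | apply BMap.fst | apply BMap.snd | exact BTerm.const _ | apply bterm_opair | apply BTerm.of | apply BPred.mem | apply BPred.eq | apply bp_has2 | apply bp_has3 | apply bp_has4 | apply bp_isTuple3 | apply bp_eq_pr | apply bp_isPair | apply bp_isUPair | apply bp_isFun | apply bp_injects | apply bp_leN | apply bp_sub | apply bp_isFin | apply bp_isTop | apply bp_isGrp | apply bp_isAbel | apply bp_isTopGrp | apply bp_isNbhd | apply bp_isFinSub | apply bp_inProd | apply bp_isSeqNb | apply bp_isSeqFs | apply bp_isOBdd | apply bp_isRestr | apply bp_isRule | apply bp_iWins | apply bp_isUMet | apply BPred.not | apply BPred.and | apply BPred.or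 | apply BPred.iff | apply BPred.imp | refine BPred.ex ?_ | refine BPred.all ?_ | exact BPred.const _)
    · intro h hx y hy k hk hle
      rw [h.inf', V_tv] at hx
      rw [has_deltaN] at hk
      subst hk
      rw [le_fdN] at hle
      rw [E_ballN]
      exact ⟨hy, fun i hi => (hle i hi).symm.trans (hx.2 i hi)⟩

/-- Almost everywhere an open set which contains `a` contains a ball. -/
theorem ae_ball_sub (v : (ℕ → ℤ) → B) (U : BName B) (a : ℕ → ℤ) : ∀ᶠ ω in genN B,
    E ω (Mdl.mk ω U) (Mdl.mk ω (topN v)) → E ω (Mdl.mk ω (nm a)) (Mdl.mk ω U) →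
      ∃ n : ℕ, Sub (E ω) (Mdl.mk ω (ballN v a n)) (Mdl.mk ω U) := by
  have h1 := ae_exists_om (B := B) (P := fun h m =>
    ∀ y k, E h y (Mdl.mk h (grN v)) → Has (E h) (Mdl.mk h (deltaN B)) [Mdl.mk h (nm a), y, k] →
      LeN (E h) m k → E h y (Mdl.mk h U)) (by (repeat' first | exact BMap.id | apply BMap.fst | apply BMap.snd | exact BTerm.const _ | apply bterm_opair | apply BTerm.of | apply BPred.mem | apply BPred.eq | apply bp_has2 | apply bp_has3 | apply bp_has4 | apply bp_isTuple3 | apply bp_eq_pr | apply bp_isPair | apply bp_isUPair | apply bp_isFun | apply bp_injects | apply bp_leN | apply bp_sub | apply bp_isFin | apply bp_isTop | apply bp_isGrp | apply bp_isAbel | apply bp_isTopGrp | apply bp_isNbhd | apply bp_isFinSub | apply bp_inProd | apply bp_isSeqNb | apply bp_isSeqFs | apply bp_isOBdd | apply bp_isRestr | apply bp_isRule | apply bp_iWins | apply bp_isUMet | apply BPred.not | apply BPred.and | apply BPred.or | apply BPred.iff | apply BPred.imp | refine BPred.ex ?_ | refine BPred.all ?_ | exact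 BPred.const _))
  filter_upwards [h1] with ω h1 hU ha
  rw [E_topN] at hU
  obtain ⟨n, hn⟩ := h1 (hU.2 _ ha)
  refine ⟨n, ?_⟩
  refine forall_chk (fun x => v x ⊓ tv B (∀ i < n, x i = a i))
    (P := fun h z => E h z (Mdl.mk h U))
    (Q := fun h => ∀ y k, E h y (Mdl.mk h (grN v)) →
      Has (E h) (Mdl.mk h (deltaN B)) [Mdl.mk h (nm a), y, k] →
      LeN (E h) (nM h n) k → E h y (Mdl.mk h U)) ?_ ?_ ?_ ω hn
  · (repeat' first | exact BMap.id | apply BMap.fst | apply BMap.snd | exact BTerm.const _ | apply bterm_opair | apply BTerm.of | apply BPred.mem | apply BPred.eq | apply bp_has2 | apply bp_has3 | apply bp_has4 | apply bp_isTuple3 | apply bp_eq_pr | apply bp_isPair | apply bp_isUPair | apply bp_isFun | apply bp_injects | apply bp_leN | apply bp_sub | apply bp_isFin | apply bp_isTop | apply bp_isGrp | apply bp_isAbel | apply bp_isTopGrp | apply bp_isNbhd | apply bp_isFinSub | apply bp_inProd | apply bp_isSeqNb | apply bp_isSeqFs | apply bp_isOBdd | apply bp_isRestr | apply bp_isRule | apply bp_iWins |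 apply bp_isUMet | apply BPred.not | apply BPred.and | apply BPred.or | apply BPred.iff | apply BPred.imp | refine BPred.ex ?_ | refine BPred.all ?_ | exact BPred.const _)
  · refine BPred.clop (P := fun h (_ : PUnit.{1}) => ∀ y k, E h y (Mdl.mk h (grN v)) →
      Has (E h) (Mdl.mk h (deltaN B)) [Mdl.mk h (nm a), y, k] →
      LeN (E h) (nM h n) k → E h y (Mdl.mk h U)) ?_ PUnit.unit
    (repeat' first | exact BMap.id | apply BMap.fst | apply BMap.snd | exact BTerm.const _ | apply bterm_opair | apply BTerm.of | apply BPred.mem | apply BPred.eq | apply bp_has2 | apply bp_has3 | apply bp_has4 | apply bp_isTuple3 | apply bp_eq_pr | apply bp_isPair | apply bp_isUPair | apply bp_isFun | apply bp_injects | apply bp_leN | apply bp_sub | apply bp_isFin | apply bp_isTop | apply bp_isGrp | apply bp_isAbel | apply bp_isTopGrp | apply bp_isNbhd | apply bp_isFinSub | apply bp_inProd | apply bp_isSeqNb | apply bp_isSeqFs | apply bp_isOBdd | apply bp_isRestr | apply bp_isRule | apply bp_iWins | apply bp_isUMet | apply BPred.not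 | apply BPred.and | apply BPred.or | apply BPred.iff | apply BPred.imp | refine BPred.ex ?_ | refine BPred.all ?_ | exact BPred.const _)
  · intro h hQ x hx
    rw [h.inf', V_tv] at hx
    refine hQ _ (Mdl.mk h (fdN B a x)) (E_chk.2 hx.1) ((has_deltaN _ _ _ _).2 rfl) ?_
    rw [le_fdN]
    exact fun i hi => (hx.2 i hi).symm

theorem isNbhd_ballN {v : (ℕ → ℤ) → B} (hv : IsGV v) (n : ℕ) (h : Ult B) :
    IsNbhd (E h) (Mdl.mk h (grN v)) (Mdl.mk h (nm (0 : ℕ → ℤ))) (Mdl.mk h (topN v))
      (Mdl.mk h (ballN v 0 n)) := by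
  refine ⟨ball_sub_gr v 0 n h, _, ball_mem_top v 0 n h, ?_, fun z hz => hz⟩
  rw [E_ballN, hv.zero]
  exact ⟨h.top', fun i _ => rfl⟩

/-- Two natural numbers have an upper bound. -/
theorem leN_max (h : Ult B) (a b : Mdl h) (ha : E h a (wM h)) (hb : E h b (wM h)) :
    ∃ m, E h m (wM h) ∧ LeN (E h) a m ∧ LeN (E h) b m := by
  refine forall_om (P := fun h a => ∀ b, E h b (wM h) →
    ∃ m, E h m (wM h) ∧ LeN (E h) a m ∧ LeN (E h) b m) ?_ clop_true ?_ h trivial a ha b hb
  · (repeat' first | exact BMap.id | apply BMap.fst | apply BMap.snd | exact BTerm.const _ | apply bterm_opair | apply BTerm.of | apply BPred.mem | apply BPred.eq | apply bp_has2 | apply bp_has3 | apply bp_has4 | apply bp_isTuple3 | apply bp_eq_pr | apply bp_isPair | apply bp_isUPair | apply bp_isFun | apply bp_injects | apply bp_leN | apply bp_sub | apply bp_isFin | apply bp_isTop | apply bp_isGrp | apply bp_isAbel | apply bp_isTopGrp | apply bp_isNbhd | apply bp_isFinSub | apply bp_inProd | apply bp_isSeqNb | apply bp_isSeqFs | apply bp_isOBdd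 | apply bp_isRestr | apply bp_isRule | apply bp_iWins | apply bp_isUMet | apply BPred.not | apply BPred.and | apply BPred.or | apply BPred.iff | apply BPred.imp | refine BPred.ex ?_ | refine BPred.all ?_ | exact BPred.const _)
  · intro h _ i
    refine forall_om (P := fun h b => 
      ∃ m, E h m (wM h) ∧ LeN (E h) (nM h i) m ∧ LeN (E h) b m) ?_ clop_true ?_ h trivial
    · (repeat' first | exact BMap.id | apply BMap.fst | apply BMap.snd | exact BTerm.const _ | apply bterm_opair | apply BTerm.of | apply BPred.mem | apply BPred.eq | apply bp_has2 | apply bp_has3 | apply bp_has4 | apply bp_isTuple3 | apply bp_eq_pr | apply bp_isPair | apply bp_isUPair | apply bp_isFun | apply bp_injects | apply bp_leN | apply bp_sub | apply bp_isFin | apply bp_isTop | apply bp_isGrp | apply bp_isAbel | apply bp_isTopGrp | apply bp_isNbhd | apply bp_isFinSub | apply bp_inProd | apply bp_isSeqNb | apply bp_isSeqFs | apply bp_isOBdd | apply bp_isRestr | apply bp_isRule | apply bp_iWins | apply bp_isUMet | apply BPred.not |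 apply BPred.and | apply BPred.or | apply BPred.iff | apply BPred.imp | refine BPred.ex ?_ | refine BPred.all ?_ | exact BPred.const _)
    · intro h _ j
      exact ⟨nM h (max i j), E_nM h _, leN_nM.2 (le_max_left _ _), leN_nM.2 (le_max_right _ _)⟩

theorem leN_trans_om (h : Ult B) (a b k : Mdl h) (ha : E h a (wM h)) (hb : E h b (wM h))
    (hk : E h k (wM h)) (hab : LeN (E h) a b) (hbk : LeN (E h) b k) : LeN (E h) a k := by
  refine forall_om (P := fun h a => ∀ b, E h b (wM h) → ∀ k, E h k (wM h) → LeN (E h) a b →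
    LeN (E h) b k → LeN (E h) a k) ?_ clop_true ?_ h trivial a ha b hb k hk hab hbk
  · (repeat' first | exact BMap.id | apply BMap.fst | apply BMap.snd | exact BTerm.const _ | apply bterm_opair | apply BTerm.of | apply BPred.mem | apply BPred.eq | apply bp_has2 | apply bp_has3 | apply bp_has4 | apply bp_isTuple3 | apply bp_eq_pr | apply bp_isPair | apply bp_isUPair | apply bp_isFun | apply bp_injects | apply bp_leN | apply bp_sub | apply bp_isFin | apply bp_isTop | apply bp_isGrp | apply bp_isAbel | apply bp_isTopGrp | apply bp_isNbhd | apply bp_isFinSub | apply bp_inProd | apply bp_isSeqNb | apply bp_isSeqFs | apply bp_isOBdd | apply bp_isRestr | apply bp_isRule | apply bp_iWins | apply bp_isUMet | apply BPred.not | apply BPred.and | apply BPred.or | apply BPred.iff | apply BPred.imp | refine BPred.ex ?_ | refine BPred.all ?_ | exact BPred.const _)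
  · intro h _ i
    refine forall_om (P := fun h b => ∀ k, E h k (wM h) → LeN (E h) (nM h i) b →
      LeN (E h) b k → LeN (E h) (nM h i) k) ?_ clop_true ?_ h trivial
    · (repeat' first | exact BMap.id | apply BMap.fst | apply BMap.snd | exact BTerm.const _ | apply bterm_opair | apply BTerm.of | apply BPred.mem | apply BPred.eq | apply bp_has2 | apply bp_has3 | apply bp_has4 | apply bp_isTuple3 | apply bp_eq_pr | apply bp_isPair | apply bp_isUPair | apply bp_isFun | apply bp_injects | apply bp_leN | apply bp_sub | apply bp_isFin | apply bp_isTop | apply bp_isGrp | apply bp_isAbel | apply bp_isTopGrp | apply bp_isNbhd | apply bp_isFinSub | apply bp_inProd | apply bp_isSeqNb | apply bp_isSeqFs | apply bp_isOBdd | apply bp_isRestr | apply bp_isRule | apply bp_iWins | apply bp_isUMet | apply BPred.not | apply BPred.and | apply BPred.or | apply BPred.iff | apply BPred.imp | refine BPred.ex ?_ | refine BPred.all ?_ | exact BPred.const _)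
    · intro h _ j
      refine forall_om (P := fun h k => LeN (E h) (nM h i) (nM h j) →
        LeN (E h) (nM h j) k → LeN (E h) (nM h i) k) ?_ clop_true ?_ h trivial
      · (repeat' first | exact BMap.id | apply BMap.fst | apply BMap.snd | exact BTerm.const _ | apply bterm_opair | apply BTerm.of | apply BPred.mem | apply BPred.eq | apply bp_has2 | apply bp_has3 | apply bp_has4 | apply bp_isTuple3 | apply bp_eq_pr | apply bp_isPair | apply bp_isUPair | apply bp_isFun | apply bp_injects | apply bp_leN | apply bp_sub | apply bp_isFin | apply bp_isTop | apply bp_isGrp | apply bp_isAbel | apply bp_isTopGrp | apply bp_isNbhd | apply bp_isFinSub | apply bp_inProd | apply bp_isSeqNb | apply bp_isSeqFs | apply bp_isOBdd | apply bp_isRestr | apply bp_isRule | apply bp_iWins | apply bp_isUMet | apply BPred.not | apply BPred.and | apply BPred.or | apply BPred.iff | apply BPred.imp | refine BPred.ex ?_ | refine BPred.all ?_ | exact BPred.const _)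
      · intro h _ k hij hjk
        rw [leN_nM] at hij hjk ⊢
        exact hij.trans hjk

theorem leN_trans (h : Ult B) (a b k : Mdl h) (ha : E h a (wM h)) (hb : E h b (wM h))
    (hk : E h k (wM h) ∨ k = wM h) (hab : LeN (E h) a b) (hbk : LeN (E h) b k) :
    LeN (E h) a k := by
  rcases hk with hk | rfl
  · exact leN_trans_om h a b k ha hb hk hab hbk
  · exact Or.inl ha

theorem isTop {v : (ℕ → ℤ) → B} (hv : IsGV v) (h : Ult B) :
    IsTop (E h) (Mdl.mk h (grN v)) (Mdl.mk h (topN v)) := by
  refine ⟨fun U hU => ((E_topN v h U).1 hU).1, ?_, ?_, ?_⟩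
  · rw [E_topN]
    exact ⟨fun z hz => hz, fun x _ => ⟨nM h 0, E_nM h 0, fun y k hy _ _ => hy⟩⟩
  · intro U V W hU hV hW
    rw [E_topN] at hU hV ⊢
    refine ⟨fun z hz => hU.1 z ((hW z).1 hz).1, ?_⟩
    intro x hx
    obtain ⟨hxU, hxV⟩ := (hW x).1 hx
    obtain ⟨n, hn, Hn⟩ := hU.2 x hxU
    obtain ⟨n', hn', Hn'⟩ := hV.2 x hxV
    obtain ⟨m, hm, h1, h2⟩ := leN_max h n n' hn hn'
    refine ⟨m, hm, fun y k hy hk hmk => ?_⟩
    have hx' := hU.1 x hxU
    obtain ⟨k₀, hk₀, Hk₀⟩ := (isUMet hv h).1 x y hx' hy
    have hkk : k = k₀ := (Hk₀ k).1 hk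
    subst hkk
    exact (hW y).2 ⟨Hn y k hy hk (leN_trans h n m k hn hm hk₀ h1 hmk),
      Hn' y k hy hk (leN_trans h n' m k hn' hm hk₀ h2 hmk)⟩
  · intro A U hA hU
    rw [E_topN]
    refine ⟨fun z hz => ?_, fun x hx => ?_⟩
    · obtain ⟨V, hV, hzV⟩ := (hU z).1 hz
      exact ((E_topN v h V).1 (hA V hV)).1 z hzV
    · obtain ⟨V, hV, hxV⟩ := (hU x).1 hx
      obtain ⟨n, hn, Hn⟩ := ((E_topN v h V).1 (hA V hV)).2 x hxV
      exact ⟨n, hn, fun y k hy hk hle => (hU y).2 ⟨V, hV, Hn y k hy hk hle⟩⟩

theorem mul_ball (v : (ℕ → ℤ) → B) (hv : IsGV v) (a b : ℕ → ℤ) (n : ℕ) (h : Ult B)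
    (x y z : Mdl h) (hx : E h x (Mdl.mk h (ballN v a n))) (hy : E h y (Mdl.mk h (ballN v b n)))
    (hz : Has (E h) (Mdl.mk h (mulN B)) [x, y, z]) : E h z (Mdl.mk h (ballN v (a + b) n)) := by
  refine forall_chk (fun x => v x ⊓ tv B (∀ i < n, x i = a i))
    (P := fun h x => ∀ y, E h y (Mdl.mk h (ballN v b n)) → ∀ z,
      Has (E h) (Mdl.mk h (mulN B)) [x, y, z] → E h z (Mdl.mk h (ballN v (a + b) n)))
    ?_ clop_true ?_ h trivial x hx y hy z hz
  · (repeat' first | exact BMap.id | apply BMap.fst | apply BMap.snd | exact BTerm.const _ | apply bterm_opair | apply BTerm.of | apply BPred.mem | apply BPred.eq | apply bp_has2 | apply bp_has3 | apply bp_has4 | apply bp_isTuple3 | apply bp_eq_pr | apply bp_isPair | apply bp_isUPair | apply bp_isFun | apply bp_injects | apply bp_leN | apply bp_sub | apply bp_isFin | apply bp_isTop | apply bp_isGrp | apply bp_isAbel | apply bp_isTopGrp | apply bp_isNbhd | apply bp_isFinSub | apply bp_inProd | apply bp_isSeqNb | apply bp_isSeqFs | apply bp_isOBdd | apply bp_isRestr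 | apply bp_isRule | apply bp_iWins | apply bp_isUMet | apply BPred.not | apply BPred.and | apply BPred.or | apply BPred.iff | apply BPred.imp | refine BPred.ex ?_ | refine BPred.all ?_ | exact BPred.const _)
  · intro h _ x hx
    refine forall_chk (fun x => v x ⊓ tv B (∀ i < n, x i = b i))
      (P := fun h y => ∀ z,
        Has (E h) (Mdl.mk h (mulN B)) [Mdl.mk h (nm x), y, z] →
          E h z (Mdl.mk h (ballN v (a + b) n)))
      (Q := fun h => h.V (v x ⊓ tv B (∀ i < n, x i = a i))) ?_ (clop_V _) ?_ h hx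
    · (repeat' first | exact BMap.id | apply BMap.fst | apply BMap.snd | exact BTerm.const _ | apply bterm_opair | apply BTerm.of | apply BPred.mem | apply BPred.eq | apply bp_has2 | apply bp_has3 | apply bp_has4 | apply bp_isTuple3 | apply bp_eq_pr | apply bp_isPair | apply bp_isUPair | apply bp_isFun | apply bp_injects | apply bp_leN | apply bp_sub | apply bp_isFin | apply bp_isTop | apply bp_isGrp | apply bp_isAbel | apply bp_isTopGrp | apply bp_isNbhd | apply bp_isFinSub | apply bp_inProd | apply bp_isSeqNb | apply bp_isSeqFs | apply bp_isOBdd | apply bp_isRestr | apply bp_isRule | apply bp_iWins | apply bp_isUMet | apply BPred.not | apply BPred.and | apply BPred.or | apply BPred.iff | apply BPred.imp | refine BPred.ex ?_ | refine BPred.all ?_ | exact BPred.const _)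
    · intro h hx y hy z hz
      rw [h.inf', V_tv] at hx hy
      rw [has_mulN] at hz
      subst hz
      rw [E_ballN]
      refine ⟨h.mono (hv.add x y) ((h.inf' _ _).2 ⟨hx.1, hy.1⟩), fun i hi => ?_⟩
      rw [Pi.add_apply, Pi.add_apply, hx.2 i hi, hy.2 i hi]

theorem inv_ball (v : (ℕ → ℤ) → B) (a b : ℕ → ℤ) (hab : a + b = 0) (n : ℕ)
    (h : Ult B) (x y : Mdl h) (hx : E h x (Mdl.mk h (ballN v a n)))
    (hy : E h y (Mdl.mk h (grN v)))
    (hz : Has (E h) (Mdl.mk h (mulN B)) [x, y, Mdl.mk h (nm (0 : ℕ → ℤ))]) :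
    E h y (Mdl.mk h (ballN v b n)) := by
  refine forall_chk (fun x => v x ⊓ tv B (∀ i < n, x i = a i))
    (P := fun h x => ∀ y, E h y (Mdl.mk h (grN v)) → 
      Has (E h) (Mdl.mk h (mulN B)) [x, y, Mdl.mk h (nm (0 : ℕ → ℤ))] →
        E h y (Mdl.mk h (ballN v b n)))
    ?_ clop_true ?_ h trivial x hx y hy hz
  · (repeat' first | exact BMap.id | apply BMap.fst | apply BMap.snd | exact BTerm.const _ | apply bterm_opair | apply BTerm.of | apply BPred.mem | apply BPred.eq | apply bp_has2 | apply bp_has3 | apply bp_has4 | apply bp_isTuple3 | apply bp_eq_pr | apply bp_isPair | apply bp_isUPair | apply bp_isFun | apply bp_injects | apply bp_leN | apply bp_sub | apply bp_isFin | apply bp_isTop | apply bp_isGrp | apply bp_isAbel | apply bp_isTopGrp | apply bp_isNbhd | apply bp_isFinSub | apply bp_inProd | apply bp_isSeqNb | apply bp_isSeqFs | apply bp_isOBdd | apply bp_isRestr | apply bp_isRule | apply bp_iWins | apply bp_isUMet | apply BPred.not | apply BPred.and | apply BPred.or | apply BPred.iff | apply BPred.imp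 | refine BPred.ex ?_ | refine BPred.all ?_ | exact BPred.const _)
  · intro h _ x hx
    refine forall_chk v
      (P := fun h y => 
        Has (E h) (Mdl.mk h (mulN B)) [Mdl.mk h (nm x), y, Mdl.mk h (nm (0 : ℕ → ℤ))] →
          E h y (Mdl.mk h (ballN v b n)))
      (Q := fun h => h.V (v x ⊓ tv B (∀ i < n, x i = a i))) ?_ (clop_V _) ?_ h hx
    · (repeat' first | exact BMap.id | apply BMap.fst | apply BMap.snd | exact BTerm.const _ | apply bterm_opair | apply BTerm.of | apply BPred.mem | apply BPred.eq | apply bp_has2 | apply bp_has3 | apply bp_has4 | apply bp_isTuple3 | apply bp_eq_pr | apply bp_isPair | apply bp_isUPair | apply bp_isFun | apply bp_injects | apply bp_leN | apply bp_sub | apply bp_isFin | apply bp_isTop | apply bp_isGrp | apply bp_isAbel | apply bp_isTopGrp | apply bp_isNbhd | apply bp_isFinSub | apply bp_inProd | apply bp_isSeqNb | apply bp_isSeqFs | apply bp_isOBdd | apply bp_isRestr | apply bp_isRule | apply bp_iWins | apply bp_isUMet | apply BPred.not | apply BPred.and | apply BPred.or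 | apply BPred.iff | apply BPred.imp | refine BPred.ex ?_ | refine BPred.all ?_ | exact BPred.const _)
    · intro h hx y hy hz
      rw [h.inf', V_tv] at hx
      rw [has_mulN, nm_inj] at hz
      rw [E_ballN]
      refine ⟨hy, fun i hi => ?_⟩
      have h1 := congrFun hz i
      have h2 := congrFun hab i
      have h3 := hx.2 i hi
      simp only [Pi.add_apply, Pi.zero_apply] at h1 h2
      omega

theorem cont_mul {v : (ℕ → ℤ) → B} (hv : IsGV v) (Un : BName B) (a b : ℕ → ℤ) :
    ∀ h : Ult B, (h.V (v a) ∧ h.V (v b) ∧ E h (Mdl.mk h Un) (Mdl.mk h (topN v)) ∧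
      E h (Mdl.mk h (nm (a + b))) (Mdl.mk h Un)) →
      ∃ V W, E h V (Mdl.mk h (topN v)) ∧ E h W (Mdl.mk h (topN v)) ∧
        E h (Mdl.mk h (nm a)) V ∧ E h (Mdl.mk h (nm b)) W ∧
        ∀ x' y' z', E h x' V → E h y' W → Has (E h) (Mdl.mk h (mulN B)) [x', y', z'] →
          E h z' (Mdl.mk h Un) := by
  refine of_gen ?_ ?_ ?_
  · refine Clop.and (clop_V _) (Clop.and (clop_V _) ?_)
    refine BPred.clop (P := fun h (_ : PUnit.{1}) => E h (Mdl.mk h Un) (Mdl.mk h (topN v)) ∧
      E h (Mdl.mk h (nm (a + b))) (Mdl.mk h Un)) ?_ PUnit.unit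
    (repeat' first | exact BMap.id | apply BMap.fst | apply BMap.snd | exact BTerm.const _ | apply bterm_opair | apply BTerm.of | apply BPred.mem | apply BPred.eq | apply bp_has2 | apply bp_has3 | apply bp_has4 | apply bp_isTuple3 | apply bp_eq_pr | apply bp_isPair | apply bp_isUPair | apply bp_isFun | apply bp_injects | apply bp_leN | apply bp_sub | apply bp_isFin | apply bp_isTop | apply bp_isGrp | apply bp_isAbel | apply bp_isTopGrp | apply bp_isNbhd | apply bp_isFinSub | apply bp_inProd | apply bp_isSeqNb | apply bp_isSeqFs | apply bp_isOBdd | apply bp_isRestr | apply bp_isRule | apply bp_iWins | apply bp_isUMet | apply BPred.not | apply BPred.and | apply BPred.or | apply BPred.iff | apply BPred.imp | refine BPred.ex ?_ | refine BPred.all ?_ | exact BPred.const _)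
  · refine BPred.clop (P := fun h (_ : PUnit.{1}) => 
      ∃ V W, E h V (Mdl.mk h (topN v)) ∧ E h W (Mdl.mk h (topN v)) ∧
        E h (Mdl.mk h (nm a)) V ∧ E h (Mdl.mk h (nm b)) W ∧
        ∀ x' y' z', E h x' V → E h y' W → Has (E h) (Mdl.mk h (mulN B)) [x', y', z'] →
          E h z' (Mdl.mk h Un)) ?_ PUnit.unit
    (repeat' first | exact BMap.id | apply BMap.fst | apply BMap.snd | exact BTerm.const _ | apply bterm_opair | apply BTerm.of | apply BPred.mem | apply BPred.eq | apply bp_has2 | apply bp_has3 | apply bp_has4 | apply bp_isTuple3 | apply bp_eq_pr | apply bp_isPair | apply bp_isUPair | apply bp_isFun | apply bp_injects | apply bp_leN | apply bp_sub | apply bp_isFin | apply bp_isTop | apply bp_isGrp | apply bp_isAbel | apply bp_isTopGrp | apply bp_isNbhd | apply bp_isFinSub | apply bp_inProd | apply bp_isSeqNb | apply bp_isSeqFs | apply bp_isOBdd | apply bp_isRestr | apply bp_isRule | apply bp_iWins | apply bp_isUMet | apply BPred.not | apply BPred.and | apply BPred.or | apply BPred.iff | apply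 BPred.imp | refine BPred.ex ?_ | refine BPred.all ?_ | exact BPred.const _)
  · filter_upwards [ae_ball_sub v Un (a + b)] with ω hω
    rintro ⟨ha, hb, hU, hab⟩
    obtain ⟨n, hn⟩ := hω hU hab
    refine ⟨Mdl.mk ω (ballN v a n), Mdl.mk ω (ballN v b n), ball_mem_top _ _ _ _,
      ball_mem_top _ _ _ _, (E_ballN _ _ _ _ _).2 ⟨ha, fun _ _ => rfl⟩,
      (E_ballN _ _ _ _ _).2 ⟨hb, fun _ _ => rfl⟩, fun x' y' z' hx hy hz => ?_⟩
    exact hn _ (mul_ball v hv a b n ω x' y' z' hx hy hz)

theorem cont_inv {v : (ℕ → ℤ) → B} (hv : IsGV v) (Un : BName B) (a b : ℕ → ℤ)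
    (hab : a + b = 0) :
    ∀ h : Ult B, (h.V (v a) ∧ h.V (v b) ∧ E h (Mdl.mk h Un) (Mdl.mk h (topN v)) ∧
      E h (Mdl.mk h (nm b)) (Mdl.mk h Un)) →
      ∃ V, E h V (Mdl.mk h (topN v)) ∧ E h (Mdl.mk h (nm a)) V ∧ 
        ∀ x' y', E h x' V → E h y' (Mdl.mk h (grN v)) →
          Has (E h) (Mdl.mk h (mulN B)) [x', y', Mdl.mk h (nm (0 : ℕ → ℤ))] →
          E h y' (Mdl.mk h Un) := by
  refine of_gen ?_ ?_ ?_
  · refine Clop.and (clop_V _) (Clop.and (clop_V _) ?_)
    refine BPred.clop (P := fun h (_ : PUnit.{1}) => E h (Mdl.mk h Un) (Mdl.mk h (topN v)) ∧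
      E h (Mdl.mk h (nm b)) (Mdl.mk h Un)) ?_ PUnit.unit
    (repeat' first | exact BMap.id | apply BMap.fst | apply BMap.snd | exact BTerm.const _ | apply bterm_opair | apply BTerm.of | apply BPred.mem | apply BPred.eq | apply bp_has2 | apply bp_has3 | apply bp_has4 | apply bp_isTuple3 | apply bp_eq_pr | apply bp_isPair | apply bp_isUPair | apply bp_isFun | apply bp_injects | apply bp_leN | apply bp_sub | apply bp_isFin | apply bp_isTop | apply bp_isGrp | apply bp_isAbel | apply bp_isTopGrp | apply bp_isNbhd | apply bp_isFinSub | apply bp_inProd | apply bp_isSeqNb | apply bp_isSeqFs | apply bp_isOBdd | apply bp_isRestr | apply bp_isRule | apply bp_iWins | apply bp_isUMet | apply BPred.not | apply BPred.and | apply BPred.or | apply BPred.iff | apply BPred.imp | refine BPred.ex ?_ | refine BPred.all ?_ | exact BPred.const _)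
  · refine BPred.clop (P := fun h (_ : PUnit.{1}) => 
      ∃ V, E h V (Mdl.mk h (topN v)) ∧ E h (Mdl.mk h (nm a)) V ∧ 
        ∀ x' y', E h x' V → E h y' (Mdl.mk h (grN v)) →
          Has (E h) (Mdl.mk h (mulN B)) [x', y', Mdl.mk h (nm (0 : ℕ → ℤ))] →
          E h y' (Mdl.mk h Un)) ?_ PUnit.unit
    (repeat' first | exact BMap.id | apply BMap.fst | apply BMap.snd | exact BTerm.const _ | apply bterm_opair | apply BTerm.of | apply BPred.mem | apply BPred.eq | apply bp_has2 | apply bp_has3 | apply bp_has4 | apply bp_isTuple3 | apply bp_eq_pr | apply bp_isPair | apply bp_isUPair | apply bp_isFun | apply bp_injects | apply bp_leN | apply bp_sub | apply bp_isFin | apply bp_isTop | apply bp_isGrp | apply bp_isAbel | apply bp_isTopGrp | apply bp_isNbhd | apply bp_isFinSub | apply bp_inProd | apply bp_isSeqNb | apply bp_isSeqFs | apply bp_isOBdd | apply bp_isRestr | apply bp_isRule | apply bp_iWins | apply bp_isUMet | apply BPred.not | apply BPred.and | apply BPred.or | apply BPred.iff | apply BPred.imp | refine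 BPred.ex ?_ | refine BPred.all ?_ | exact BPred.const _)
  · filter_upwards [ae_ball_sub v Un b] with ω hω
    rintro ⟨ha, hb, hU, hbU⟩
    obtain ⟨n, hn⟩ := hω hU hbU
    refine ⟨Mdl.mk ω (ballN v a n), ball_mem_top _ _ _ _, 
      (E_ballN _ _ _ _ _).2 ⟨ha, fun _ _ => rfl⟩, fun x' y' hx hy hz => ?_⟩
    exact hn _ (inv_ball v a b hab n ω x' y' hx hy hz)

theorem isTopGrp {v : (ℕ → ℤ) → B} (hv : IsGV v) (h : Ult B) :
    IsTopGrp (E h) (Mdl.mk h (grN v)) (Mdl.mk h (mulN B)) (Mdl.mk h (nm (0 : ℕ → ℤ)))
      (Mdl.mk h (topN v)) := by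
  refine ⟨isGrp hv h, isTop hv h, ?_, ?_⟩
  · intro x y z U hx hy hz hU hzU
    obtain ⟨Un, rfl⟩ := U.exists_rep
    refine forall_chk v (P := fun h x => ∀ y, E h y (Mdl.mk h (grN v)) → ∀ z,
      Has (E h) (Mdl.mk h (mulN B)) [x, y, z] → E h (Mdl.mk h Un) (Mdl.mk h (topN v)) →
      E h z (Mdl.mk h Un) → ∃ V W, E h V (Mdl.mk h (topN v)) ∧ E h W (Mdl.mk h (topN v)) ∧
        E h x V ∧ E h y W ∧
        ∀ x' y' z', E h x' V → E h y' W → Has (E h) (Mdl.mk h (mulN B)) [x', y', z'] →
          E h z' (Mdl.mk h Un)) ?_ clop_true ?_ h trivial x hx y hy z hz hU hzU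
    · (repeat' first | exact BMap.id | apply BMap.fst | apply BMap.snd | exact BTerm.const _ | apply bterm_opair | apply BTerm.of | apply BPred.mem | apply BPred.eq | apply bp_has2 | apply bp_has3 | apply bp_has4 | apply bp_isTuple3 | apply bp_eq_pr | apply bp_isPair | apply bp_isUPair | apply bp_isFun | apply bp_injects | apply bp_leN | apply bp_sub | apply bp_isFin | apply bp_isTop | apply bp_isGrp | apply bp_isAbel | apply bp_isTopGrp | apply bp_isNbhd | apply bp_isFinSub | apply bp_inProd | apply bp_isSeqNb | apply bp_isSeqFs | apply bp_isOBdd | apply bp_isRestr | apply bp_isRule | apply bp_iWins | apply bp_isUMet | apply BPred.not | apply BPred.and | apply BPred.or | apply BPred.iff | apply BPred.imp | refine BPred.ex ?_ | refine BPred.all ?_ | exact BPred.const _)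
    · intro h _ a ha
      refine forall_chk v (P := fun h y => ∀ z,
        Has (E h) (Mdl.mk h (mulN B)) [Mdl.mk h (nm a), y, z] →
        E h (Mdl.mk h Un) (Mdl.mk h (topN v)) →
        E h z (Mdl.mk h Un) → ∃ V W, E h V (Mdl.mk h (topN v)) ∧ E h W (Mdl.mk h (topN v)) ∧
          E h (Mdl.mk h (nm a)) V ∧ E h y W ∧
          ∀ x' y' z', E h x' V → E h y' W → Has (E h) (Mdl.mk h (mulN B)) [x', y', z'] →
            E h z' (Mdl.mk h Un)) (Q := fun h => h.V (v a)) ?_ (clop_V _) ?_ h ha
      · (repeat' first | exact BMap.id | apply BMap.fst | apply BMap.snd | exact BTerm.const _ | apply bterm_opair | apply BTerm.of | apply BPred.mem | apply BPred.eq | apply bp_has2 | apply bp_has3 | apply bp_has4 | apply bp_isTuple3 | apply bp_eq_pr | apply bp_isPair | apply bp_isUPair | apply bp_isFun | apply bp_injects | apply bp_leN | apply bp_sub | apply bp_isFin | apply bp_isTop | apply bp_isGrp | apply bp_isAbel | apply bp_isTopGrp | apply bp_isNbhd | apply bp_isFinSub | apply bp_inProd | apply bp_isSeqNb | apply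 bp_isSeqFs | apply bp_isOBdd | apply bp_isRestr | apply bp_isRule | apply bp_iWins | apply bp_isUMet | apply BPred.not | apply BPred.and | apply BPred.or | apply BPred.iff | apply BPred.imp | refine BPred.ex ?_ | refine BPred.all ?_ | exact BPred.const _)
      · intro h ha b hb z hz hU hzU
        rw [has_mulN] at hz
        subst hz
        exact cont_mul hv Un a b h ⟨ha, hb, hU, hzU⟩
  · intro x y U hx hy hz hU hyU
    obtain ⟨Un, rfl⟩ := U.exists_rep
    refine forall_chk v (P := fun h x => ∀ y, E h y (Mdl.mk h (grN v)) → 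
      Has (E h) (Mdl.mk h (mulN B)) [x, y, Mdl.mk h (nm (0 : ℕ → ℤ))] →
      E h (Mdl.mk h Un) (Mdl.mk h (topN v)) →
      E h y (Mdl.mk h Un) → ∃ V, E h V (Mdl.mk h (topN v)) ∧ E h x V ∧ 
        ∀ x' y', E h x' V → E h y' (Mdl.mk h (grN v)) →
          Has (E h) (Mdl.mk h (mulN B)) [x', y', Mdl.mk h (nm (0 : ℕ → ℤ))] →
          E h y' (Mdl.mk h Un)) ?_ clop_true ?_ h trivial x hx y hy hz hU hyU
    · (repeat' first | exact BMap.id | apply BMap.fst | apply BMap.snd | exact BTerm.const _ | apply bterm_opair | apply BTerm.of | apply BPred.mem | apply BPred.eq | apply bp_has2 | apply bp_has3 | apply bp_has4 | apply bp_isTuple3 | apply bp_eq_pr | apply bp_isPair | apply bp_isUPair | apply bp_isFun | apply bp_injects | apply bp_leN | apply bp_sub | apply bp_isFin | apply bp_isTop | apply bp_isGrp | apply bp_isAbel | apply bp_isTopGrp | apply bp_isNbhd | apply bp_isFinSub | apply bp_inProd | apply bp_isSeqNb | apply bp_isSeqFs | apply bp_isOBdd | apply bp_isRestr | apply bp_isRule | apply bp_iWins | apply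 bp_isUMet | apply BPred.not | apply BPred.and | apply BPred.or | apply BPred.iff | apply BPred.imp | refine BPred.ex ?_ | refine BPred.all ?_ | exact BPred.const _)
    · intro h _ a ha
      refine forall_chk v (P := fun h y => 
        Has (E h) (Mdl.mk h (mulN B)) [Mdl.mk h (nm a), y, Mdl.mk h (nm (0 : ℕ → ℤ))] →
        E h (Mdl.mk h Un) (Mdl.mk h (topN v)) →
        E h y (Mdl.mk h Un) → ∃ V, E h V (Mdl.mk h (topN v)) ∧ E h (Mdl.mk h (nm a)) V ∧ 
          ∀ x' y', E h x' V → E h y' (Mdl.mk h (grN v)) →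
            Has (E h) (Mdl.mk h (mulN B)) [x', y', Mdl.mk h (nm (0 : ℕ → ℤ))] →
            E h y' (Mdl.mk h Un)) (Q := fun h => h.V (v a)) ?_ (clop_V _) ?_ h ha
      · (repeat' first | exact BMap.id | apply BMap.fst | apply BMap.snd | exact BTerm.const _ | apply bterm_opair | apply BTerm.of | apply BPred.mem | apply BPred.eq | apply bp_has2 | apply bp_has3 | apply bp_has4 | apply bp_isTuple3 | apply bp_eq_pr | apply bp_isPair | apply bp_isUPair | apply bp_isFun | apply bp_injects | apply bp_leN | apply bp_sub | apply bp_isFin | apply bp_isTop | apply bp_isGrp | apply bp_isAbel | apply bp_isTopGrp | apply bp_isNbhd | apply bp_isFinSub | apply bp_inProd | apply bp_isSeqNb | apply bp_isSeqFs | apply bp_isOBdd | apply bp_isRestr | apply bp_isRule | apply bp_iWins | apply bp_isUMet | apply BPred.not | apply BPred.and | apply BPred.or | apply BPred.iff | apply BPred.imp | refine BPred.ex ?_ | refine BPred.all ?_ | exact BPred.const _)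
      · intro h ha b hb hz hU hyU
        rw [has_mulN, nm_inj] at hz
        exact cont_inv hv Un a b hz.symm h ⟨ha, hb, hU, hyU⟩

end Pool.Agent.MP_b00c97_gt.YS
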